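import Pool.Agent.Lib.MP_fb3619_al.H71.Ya
import Pool.Agent.Lib.MP_fb3619_al.H11.Fin
import Pool.Agent.Lib.MP_fb3619_al.RG.Frc
import Pool.Agent.Lib.MP_fb3619_al.FP.Iface

/-!
# MP_fb3619_al, LEMMA Y, part 5: the statement `YlS` of board FPF
-/

set_option autoImplicit false

universe u

namespace Pool.Agent.FourGp.H71

open Equiv
open Pool.Agent.FourGp.H18 (EE Rep)
open Pool.Agent.FourGp.H99 (LF)
open Pool.Agent.FourGp.FF (Fr Cz Fx mem_Cz mem_Fx fi relIndex_of_cover cover_of_relIndex VInv)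
open Pool.Agent.FourGp.H11 (EA eP eP_val eP_col eP_bp eP_ap eP_pa eJ eJ_val comm_conj)

section aut

variable {G : Type u} [Group G] {H K : Subgroup G} {a b c e : G}

theorem EA_inv (he : EA H K a b c e) : EA H K a b c e⁻¹ := by
  have ci : ∀ v : G, e * v = v * e → e⁻¹ * v = v * e⁻¹ := fun v hv =>
    (show Commute e v from hv).inv_left.eq
  refine ⟨?_, ?_, ?_, ?_, ci _ he.ea, ci _ he.eb, ci _ he.ec⟩
  · intro x hx
    rw [inv_inv]
    exact he.hH' x hx
  · intro x hx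
    rw [inv_inv]
    exact he.hH x hx
  · intro x hx
    rw [inv_inv]
    exact he.hK' x hx
  · intro x hx
    rw [inv_inv]
    exact he.hK x hx

theorem eP_isC (h : Cfg H K a b c) (he : EA H K a b c e) {z : Pt H} {γ : J h}
    {β : J h.rot.rot} (hz : IsC h z γ β) :
    IsC h (eP he z) (eJ h he γ) (eJ h.rot.rot he.rot.rot β) := by
  have hcol := eP_col h he
  refine ⟨h.geo.st_trans _ _ _ hz.s (hcol.tp z), ?_, ?_⟩
  · have h1 := (hcol.inc _ _).1 hz.p
    change (inc H K).perp (eP he z) (eP he (J.bp h γ)) at h1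
    rw [eP_bp] at h1
    exact h1
  · have h1 := (hcol.inc _ _).1 hz.q
    change (inc H K).perp (eP he z) (eP he.rot.rot (J.ap h.rot.rot β)) at h1
    rw [eP_ap] at h1
    exact h1

theorem XA.conj {v x : G} (he : EA H K a b c e) (hv : e * v = v * e) (hx : XA K v x) :
    XA K v (e⁻¹ * x * e) := ⟨he.hK _ hx.1, comm_conj hv hx.2⟩

theorem XA.conj' {v x : G} (he : EA H K a b c e) (hv : e * v = v * e) (hx : XA K v x) :
    XA K v (e * x * e⁻¹) := by
  have h1 := XA.conj (EA_inv he) (show Commute e v from hv).inv_left.eq hx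
  rwa [inv_inv] at h1

theorem eP_cjx (h : Cfg H K a b c) (he : EA H K a b c e) {x : G} (hx : XA K a x) (z : Pt H) :
    eP he (cjx h hx.1 z) = cjx h (XA.conj he he.ea hx).1 (eP he z) := by
  apply Subtype.ext
  rw [eP_val, cjx_val, cjx_val, eP_val]
  group

/-- The data of `e`. -/
theorem ed_of (h : Cfg H K a b c) (he : EA H K a b c e) :
    ED h e (eJ h he) (eJ h (EA_inv he)) (eJ h.rot.rot he.rot.rot) := by
  obtain ⟨c1, c2, c3, c4, c5, c6, c7⟩ := part3_coor G H K a b c h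
  refine ⟨fun x hx => XA.conj he he.ea hx, fun x hx => XA.conj' he he.ea hx,
    fun x hx => XA.conj he he.eb hx, ?_, ?_, ?_, ?_, ?_⟩
  · intro γ
    apply J.ext
    rw [eJ_val, eJ_val]
    group
  · intro γ
    apply J.ext
    rw [eJ_val, eJ_val]
    group
  · intro x q hx hq
    refine gq_eq h (XA.conj he he.ea hx) (XA.conj he he.eb hq) ?_
    have h1 := ((eP_col h he).inc _ _).1 (gq_spec h hx hq)
    change (inc H K).perp (eP he (px h hx hq)) (eP he (J.bp h (gq h x q))) at h1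
    rw [eP_bp] at h1
    have e1 : px h (XA.conj he he.ea hx) (XA.conj he he.eb hq) = eP he (px h hx hq) := by
      show cjx h _ _ = eP he (cjx h _ _)
      rw [eP_cjx h he hx]
      congr 1
      apply Subtype.ext
      rw [eP_val, aq_val, aq_val]
      have h2 : e⁻¹ * a = a * e⁻¹ := (show Commute e a from he.ea).inv_left.eq
      calc a * (e⁻¹ * q * e) = (a * e⁻¹) * q * e := by group
        _ = e⁻¹ * (a * q) * e := by rw [← h2]; group
    rw [e1]
    exact h1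
  · intro x hx γ
    have h1 := eP_isC h he (Rm_rep h hx _ _ _ (c6 γ))
    rw [eP_cjx h he hx, eP_ap] at h1
    have h2 := Rm_rep h (XA.conj he he.ea hx) _ _ _ (c6 (H11.eJf h he γ))
    exact ((c4 _ _ _ _ _ h2 h1).2)
  · intro x hx β
    have h1 := eP_isC h he (Rm_rep h hx _ _ _ (c7 β))
    rw [eP_cjx h he hx] at h1
    have e1 : eP he (J.bp h.rot.rot β) = J.bp h.rot.rot (H11.eJf h.rot.rot he.rot.rot β) :=
      eP_bp h.rot.rot he.rot.rot β
    rw [e1] at h1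
    have h2 := Rm_rep h (XA.conj he he.ea hx) _ _ _ (c7 (H11.eJf h.rot.rot he.rot.rot β))
    exact ((c4 _ _ _ _ _ h2 h1).1)

/-- Finitely many commutators. -/
theorem fin_comm {v : G} (hi : fi (Cz K v) e) :
    {z | ∃ x ∈ K, x * v = v * x ∧ z = x⁻¹ * (e⁻¹ * x * e)}.Finite := by
  refine ((FF.fi_finite hi).image fun y => y⁻¹ * e).subset ?_
  rintro _ ⟨x, hx, hxv, rfl⟩
  refine ⟨x⁻¹ * e * x, ⟨x, mem_Cz.2 ⟨hx, hxv⟩, rfl⟩, ?_⟩
  show (x⁻¹ * e * x)⁻¹ * e = _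
  group

/-- The mirror image: the components of `R_z` for the configuration `(a, c, b)`. -/
theorem Sc_mirror (h : Cfg H K a b c) {z : G} (hz : XA K a z) (γ : J h.rot.rot.swap) :
    (Sc h.rot.rot.swap z γ).1 = (Sb h z ⟨γ.1, γ.2⟩).1 := by
  have h1 := Rm_rep h hz _ _ _ ((part3_coor G H K a b c h).2.2.2.2.2.2 ⟨γ.1, γ.2⟩)
  have h2 := Rm_rep h.rot.rot.swap hz _ _ _
    ((part3_coor G H K a c b h.rot.rot.swap).2.2.2.2.2.1 γ)
  have e1 : J.ap h.rot.rot.swap γ = J.bp h.rot.rot ⟨γ.1, γ.2⟩ := Subtype.ext rfl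
  rw [e1] at h2
  have e2 : cjx h.rot.rot.swap hz.1 (J.bp h.rot.rot ⟨γ.1, γ.2⟩) =
      cjx h hz.1 (J.bp h.rot.rot ⟨γ.1, γ.2⟩) := rfl
  rw [e2] at h2
  have h3 : (inc H K).perp (cjx h hz.1 (J.bp h.rot.rot ⟨γ.1, γ.2⟩))
      (J.bp h ⟨(Sc h.rot.rot.swap z γ).1, (Sc h.rot.rot.swap z γ).2⟩) := by
    have e3 : J.bp h ⟨(Sc h.rot.rot.swap z γ).1, (Sc h.rot.rot.swap z γ).2⟩ =
      J.ap h.rot.rot.swap.rot.rot (Sc h.rot.rot.swap z γ) := Subtype.ext rfl
    rw [e3]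
    exact h2.q
  have h4 := first_uniq h h1.s h3 h1.p
  exact congrArg (fun t : J h => t.1) h4

/-- LEMMA Y for configurations. -/
theorem ly (h : Cfg H K a b c) (hLF : LF K) (he : EA H K a b c e)
    (hodd : ∃ n : ℕ, e ^ (2 * n + 1) = 1)
    (hb : {q | XA K b q ∧ fi (Cz K a) q}.Finite) (hc : {t | XA K c t ∧ fi (Cz K a) t}.Finite)
    (hi : fi (Cz K c) e) :
    fi (Cz K b) e ∧ ∀ x, XA K a x → fi (Cz K b) (x⁻¹ * (e⁻¹ * x * e)) ∧
      fi (Cz K c) (x⁻¹ * (e⁻¹ * x * e)) := by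
  have D := ed_of h he
  have hΔ := H11.f4 h hLF he (fin_comm hi)
  have h1 : fi (Cz K b) (e * e) := by
    apply FF.fi_of_finite
    refine (hb.image fun ζ => e * e * ζ⁻¹).subset ?_
    rintro _ ⟨η, hη, rfl⟩
    have hη' : XA K b η := mem_Cz.1 hη
    refine ⟨η⁻¹ * (e⁻¹ * (e⁻¹ * η * e) * e), ⟨?_, y_one h D hΔ hb hc hη'⟩, ?_⟩
    · exact hη'.inv.mul (D.Xb _ (D.Xb _ hη'))
    · show e * e * (η⁻¹ * (e⁻¹ * (e⁻¹ * η * e) * e))⁻¹ = η⁻¹ * (e * e) * η
      simp only [mul_inv_rev, inv_inv, mul_assoc, mul_inv_cancel_left]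
  have h2 : fi (Cz K b) e := by
    obtain ⟨n, hn⟩ := hodd
    intro h0
    apply h1
    refine Subgroup.relIndex_eq_zero_of_le_left ?_ h0
    intro g hg
    rw [Subgroup.mem_centralizer_singleton_iff] at hg ⊢
    have c1 : Commute g ((e * e) ^ (n + 1)) := (show Commute g (e * e) from hg).pow_right _
    have e1 : (e * e) ^ (n + 1) = e := by
      rw [← pow_two, ← pow_mul, show 2 * (n + 1) = (2 * n + 1) + 1 by ring, pow_succ, hn,
        one_mul]
    rw [e1] at c1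
    exact c1
  refine ⟨h2, fun x hx => ?_⟩
  have hΔb : {d : J h.rot.rot | ∃ β, d = eJ h.rot.rot he.rot.rot β - β}.Finite :=
    H11.f4 h.rot.rot hLF he.rot.rot (fin_comm h2)
  obtain ⟨f1, f2⟩ := y_J h D hΔ hΔb hx
  have hz : XA K a (x⁻¹ * (e⁻¹ * x * e)) := hx.inv.mul (D.Xa _ hx)
  refine ⟨y_two h hb hc hz f1, ?_⟩
  refine y_two h.rot.rot.swap hc hb hz ?_
  refine Set.Finite.of_finite_image (f := fun y : J h.rot.rot.swap.rot.rot => y.1) ?_
    fun x _ y _ e => Subtype.ext e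
  refine (f2.image fun y : J h => y.1).subset ?_
  rintro _ ⟨_, ⟨γ, rfl⟩, rfl⟩
  exact ⟨_, ⟨⟨γ.1, γ.2⟩, rfl⟩, (Sc_mirror h hz γ).symm⟩

end aut

theorem cz_eq {G : Type u} [Group G] {K W : Subgroup G} (hW : W ≤ K) (v : G) :
    Cz W v = W ⊓ Cz K v := by
  ext x
  rw [Subgroup.mem_inf, mem_Cz, mem_Cz]
  exact ⟨fun h => ⟨h.1, hW h.1, h.2⟩, fun h => ⟨h.1, h.2.2⟩⟩

/-- LEMMA Y. -/
theorem yls : FF.Fp.YlS.{u} := by
  intro G _ K a b c h W hW hV hLF hfix hbf hcf e he hn hi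
  obtain ⟨hcfg, -⟩ := RG.frc G K W a b c h hW hV fun w hw hw' => hfix w hw hw'
  obtain ⟨he1, he2, he3⟩ := mem_Fx.1 he
  obtain ⟨n, hodd⟩ := h.odd e he1
  have hpow : ∀ m : ℕ, ∀ w ∈ W, (e ^ m)⁻¹ * w * e ^ m ∈ W := by
    intro m
    induction m with
    | zero => intro w hw; simpa using hw
    | succ m ih =>
      intro w hw
      have h1 := hn _ (ih w hw)
      have e1 : (e ^ (m + 1))⁻¹ * w * e ^ (m + 1) = e⁻¹ * ((e ^ m)⁻¹ * w * e ^ m) * e := by
        rw [pow_succ]; group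
      rw [e1]
      exact h1
  have hn' : ∀ w ∈ W, e * w * e⁻¹ ∈ W := by
    intro w hw
    have h1 := hpow (2 * n) w hw
    have e1 : e ^ (2 * n) = e⁻¹ := by
      rw [pow_succ] at hodd
      exact eq_inv_of_mul_eq_one_left hodd
    rwa [e1, inv_inv] at h1
  have he4 : e * c = c * e := by
    rw [← h.ab]
    exact ((show Commute e a from he2).mul_right (show Commute e b from he3)).eq
  have ci : ∀ v : G, e * v = v * e → e⁻¹ * v = v * e⁻¹ := fun v hv =>
    (show Commute e v from hv).inv_left.eq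
  have hWH : W ≤ HV W a b c := hcfg.le
  have hEA : EA (HV W a b c) W a b c e := by
    have key : ∀ f : G, (∀ w ∈ W, f⁻¹ * w * f ∈ W) → f * a = a * f → f * b = b * f →
        f * c = c * f → ∀ x ∈ HV W a b c, f⁻¹ * x * f ∈ HV W a b c := by
      intro f hf fa fb fc x hx
      have k1 : ∀ v : G, v ∈ HV W a b c → v * v = 1 → f * v = v * f → x * v ∈ W →
          f⁻¹ * x * f ∈ HV W a b c := by
        intro v hv hvv hfv hxv
        have e1 : f⁻¹ * x * f = (f⁻¹ * (x * v) * f) * v := by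
          calc f⁻¹ * x * f = f⁻¹ * (x * (v * v)) * f := by rw [hvv, mul_one]
            _ = f⁻¹ * (x * v) * (v * f) := by group
            _ = f⁻¹ * (x * v) * (f * v) := by rw [hfv]
            _ = _ := by group
        rw [e1]
        exact Subgroup.mul_mem _ (hWH (hf _ hxv)) hv
      rcases hcfg.top x hx with h1 | h1 | h1 | h1
      · exact hWH (hf _ h1)
      · exact k1 a hcfg.ha h.aa fa h1
      · exact k1 b hcfg.hb h.bb fb h1
      · exact k1 c hcfg.hc h.cc fc h1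
    refine ⟨key e hn he2 he3 he4, ?_, hn, hn', he2, he3, he4⟩
    intro x hx
    have h1 := key e⁻¹ (fun w hw => by rw [inv_inv]; exact hn' w hw) (ci _ he2) (ci _ he3)
      (ci _ he4) x hx
    rwa [inv_inv] at h1
  have hb : {q | XA W b q ∧ fi (Cz W a) q}.Finite := by
    refine hbf.subset ?_
    rintro q ⟨h1, h2⟩
    rw [cz_eq hW] at h2
    exact ⟨h1.1, mem_Cz.2 ⟨hW h1.1, h1.2⟩, h2⟩
  have hc : {q | XA W c q ∧ fi (Cz W a) q}.Finite := by
    refine hcf.subset ?_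
    rintro q ⟨h1, h2⟩
    rw [cz_eq hW] at h2
    exact ⟨h1.1, mem_Cz.2 ⟨hW h1.1, h1.2⟩, h2⟩
  have hi' : fi (Cz W c) e := by
    rw [cz_eq hW]
    exact hi
  obtain ⟨r1, r2⟩ := ly hcfg hLF hEA ⟨n, hodd⟩ hb hc hi'
  rw [cz_eq hW] at r1
  refine ⟨r1, fun x hx hxa => ?_⟩
  have r3 := r2 x ⟨hx, (mem_Cz.1 hxa).2⟩
  rw [cz_eq hW, cz_eq hW] at r3
  exact r3

end Pool.Agent.FourGp.H71
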