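import Pool.Agent.Lib.MP_fb3619_al.H71.Rx

/-!
# MP_fb3619_al, LEMMA Y, part 2: the function `g(x, q)`

`x ∈ C_K(a)`, `q ∈ C_K(b)`: `g(x, q) ∈ J_c` is the first coordinate of the point `(a q)^x`.
-/

set_option autoImplicit false

universe u

namespace Pool.Agent.FourGp.H71

open Equiv
open Pool.Agent.FourGp.H18 (EE Rep rep_unique rep_mul rep_one rep_pow eps eps_apply eps_eps no2
  cb cb_val rep_cb cb_cb)

variable {G : Type u} [Group G] {H K : Subgroup G} {a b c : G}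

/-! ### Points -/

/-- The point `a q`, `q ∈ C_K(b)`. -/
def aq (h : Cfg H K a b c) {q : G} (hq : XA K b q) : Pt H := ⟨a * q,
  H.mul_mem h.ha (h.le hq.1), by
    rw [mul_assoc, ← mul_assoc q, h.rot.rot.mul_b hq.1 hq.2, mul_assoc, inv_mul_cancel, mul_one,
      h.haa],
  fun e => h.ea (by
    have : a = q⁻¹ := eq_inv_of_mul_eq_one_left e
    rw [this]; exact K.inv_mem hq.1)⟩

/-- The line `c q`, `q ∈ C_K(b)`. -/
def cq (h : Cfg H K a b c) {q : G} (hq : XA K b q) : Pt H := ⟨c * q,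
  H.mul_mem h.hc (h.le hq.1), by
    rw [mul_assoc, ← mul_assoc q, h.rot.rot.mul_a hq.1 hq.2, mul_assoc, inv_mul_cancel, mul_one,
      h.hcc],
  fun e => h.ec (by
    have : c = q⁻¹ := eq_inv_of_mul_eq_one_left e
    rw [this]; exact K.inv_mem hq.1)⟩

theorem aq_val (h : Cfg H K a b c) {q : G} (hq : XA K b q) : (aq h hq).1 = a * q := rfl
theorem cq_val (h : Cfg H K a b c) {q : G} (hq : XA K b q) : (cq h hq).1 = c * q := rfl

theorem perp_of (x y : Pt H) (e : x.1 * y.1 = y.1 * x.1) (hn : ¬ (inc H K).st x y) :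
    (inc H K).perp x y := by
  refine ⟨e, fun e' => hn ?_⟩
  show x.1 * y.1 ∈ K
  rw [e', y.2.2.1]
  exact K.one_mem

theorem st_aq (h : Cfg H K a b c) {q : G} (hq : XA K b q) : (inc H K).st h.pa (aq h hq) := by
  show a * (a * q) ∈ K
  rw [← mul_assoc, h.haa, one_mul]
  exact hq.1

theorem st_cq (h : Cfg H K a b c) {q : G} (hq : XA K b q) : (inc H K).st h.pc (cq h hq) := by
  show c * (c * q) ∈ K
  rw [← mul_assoc, h.hcc, one_mul]
  exact hq.1

theorem nst_ab (h : Cfg H K a b c) : ¬ (inc H K).st h.pa h.pb := h.geo.perp_st _ _ h.pab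
theorem nst_bc (h : Cfg H K a b c) : ¬ (inc H K).st h.pb h.pc := h.geo.perp_st _ _ h.pbc
theorem nst_ac (h : Cfg H K a b c) : ¬ (inc H K).st h.pa h.pc := h.geo.perp_st _ _ h.pac

theorem perp_aq_pb (h : Cfg H K a b c) {q : G} (hq : XA K b q) :
    (inc H K).perp (aq h hq) h.pb := by
  refine perp_of _ _ ?_ fun e => nst_ab h (h.geo.st_trans _ _ _ (st_aq h hq) e)
  show a * q * b = b * (a * q)
  rw [mul_assoc, hq.2, ← mul_assoc, ← mul_assoc, h.ab, h.ba]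

theorem perp_cq_pb (h : Cfg H K a b c) {q : G} (hq : XA K b q) :
    (inc H K).perp (cq h hq) h.pb := by
  refine perp_of _ _ ?_ fun e => nst_bc h (h.geo.st_symm _ _
    (h.geo.st_trans _ _ _ (st_cq h hq) e))
  show c * q * b = b * (c * q)
  rw [mul_assoc, hq.2, ← mul_assoc, ← mul_assoc, h.cb, h.bc]

theorem cr_pb_pc (h : Cfg H K a b c) : (inc H K).cr h.pb h.pc = h.pa :=
  (h.geo.uniq _ _ _ (nst_bc h) h.pba h.pca).symm

/-! ### The group `NN a` -/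

/-- Two lines of type `b` (or two points) determine the first coordinate. -/
theorem first_uniq (h : Cfg H K a b c) {z : Pt H} (hz : (inc H K).st h.pa z) {γ γ' : J h}
    (h1 : (inc H K).perp z (J.bp h γ)) (h2 : (inc H K).perp z (J.bp h γ')) : γ = γ' := by
  have hn : ¬ (inc H K).st z h.pc := fun e => nst_ac h (h.geo.st_trans _ _ _ hz e)
  have e1 := h.geo.uniq _ _ _ hn h1 (h.geo.perp_symm _ _ (J.perp_bc h γ))
  have e2 := h.geo.uniq _ _ _ hn h2 (h.geo.perp_symm _ _ (J.perp_bc h γ'))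
  exact J.bp_inj h (e1.trans e2.symm)

/-- `φ ∈ NN a` moves `a` to the point with coordinates `n`. -/
def NNc (h : Cfg H K a b c) (φ : Perm (Pt H) × Perm (Pt H)) (n : EE h) : Prop :=
  φ ∈ (inc H K).NN h.pa ∧ IsC h (φ.1 h.pa) n.1 n.2

theorem nn_sim (h : Cfg H K a b c) {φ : Perm (Pt H) × Perm (Pt H)} (hφ : φ ∈ (inc H K).NN h.pa) :
    ∀ y, (inc H K).st y h.pa → (inc H K).sim y (φ.1 y) := by
  have hg := h.geo
  refine Subgroup.closure_induction (p := fun φ _ => ∀ y, (inc H K).st y h.pa →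
    (inc H K).sim y (φ.1 y)) ?_ ?_ ?_ ?_ hφ
  · rintro φ ⟨v, hv⟩ y hy
    exact part1_gens _ _ hg _ _ _ hv y hy
  · intro y _
    exact Inc.IsGeo.sim_refl _
  · intro φ ψ _ _ e1 e2 y hy
    have e3 := e2 y hy
    have e4 : (inc H K).st (ψ.1 y) h.pa :=
      hg.st_trans _ _ _ (hg.st_symm _ _ (hg.sim_st e3)) hy
    exact Inc.IsGeo.sim_trans e3 (e1 _ e4)
  · intro φ hφ' e1 y hy
    have hcol := (hg.NN_col hφ').1
    have e2 : (inc H K).st (φ⁻¹.1 y) h.pa := by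
      have e3 := hcol.tp (φ⁻¹.1 y)
      have e4 : φ.1 (φ⁻¹.1 y) = y := φ.1.apply_symm_apply y
      rw [e4] at e3
      exact hg.st_trans _ _ _ e3 hy
    have e5 := e1 _ e2
    have e4 : φ.1 (φ⁻¹.1 y) = y := φ.1.apply_symm_apply y
    rw [e4] at e5
    exact Inc.IsGeo.sim_symm e5

theorem nnc_exists (h : Cfg H K a b c) {φ : Perm (Pt H) × Perm (Pt H)}
    (hφ : φ ∈ (inc H K).NN h.pa) : ∃ n, NNc h φ n := by
  obtain ⟨γ, β, i⟩ := (part3_coor G H K a b c h).1 _ (nn_sim h hφ h.pa (h.geo.st_refl _))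
  exact ⟨(γ, β), hφ, i⟩

theorem nnc_uniq (h : Cfg H K a b c) {φ : Perm (Pt H) × Perm (Pt H)} {n m : EE h}
    (h1 : NNc h φ n) (h2 : NNc h φ m) : n = m := by
  obtain ⟨e1, e2⟩ := (part3_coor G H K a b c h).2.2.2.1 _ _ _ _ _ h1.2 h2.2
  exact Prod.ext e1 e2

theorem isC_pa (h : Cfg H K a b c) : IsC h h.pa 0 0 := by
  have h1 := (part3_coor G H K a b c h).2.2.2.2.2.1 0
  rwa [J.ap_zero] at h1

/-- The action on the class of `a`. -/
theorem nnc_cls (h : Cfg H K a b c) {φ : Perm (Pt H) × Perm (Pt H)} {n : EE h} (hn : NNc h φ n)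
    {z : Pt H} {γ : J h} {β : J h.rot.rot} (hz : IsC h z γ β) :
    IsC h (φ.1 z) (n.1 + γ) (n.2 + β) := by
  obtain ⟨c1, c2, c3, c4, c5, c6, -⟩ := part3_coor G H K a b c h
  obtain ⟨τ, -, ht2, ht3⟩ := H82.exists_tau part3_tran h n.1 n.2
  have e1 : τ.1 h.pa = φ.1 h.pa := by
    have := ht3 _ _ _ (isC_pa h)
    rw [add_zero, add_zero] at this
    exact c5 _ _ _ _ this hn.2
  have hτφ : τ⁻¹ * φ ∈ (inc H K).NN h.pa := Subgroup.mul_mem _ (Subgroup.inv_mem _ ht2) hn.1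
  have e2 : (τ⁻¹ * φ).1 h.pa = h.pa := by
    show τ.1.symm (φ.1 h.pa) = h.pa
    rw [← e1, Equiv.symm_apply_apply]
  have e3 := (part1_reg _ _ h.geo h.lemF).1 h.pa _ h.pa z hτφ (h.geo.st_refl _) e2 (c3 _ _ _ hz)
  have e4 : φ.1 z = τ.1 z := by
    have : τ.1.symm (φ.1 z) = z := e3
    rw [← this, Equiv.apply_symm_apply, this]
  rw [e4]
  exact ht3 _ _ _ hz

theorem nnc_mul (h : Cfg H K a b c) {φ ψ : Perm (Pt H) × Perm (Pt H)} {n m : EE h}
    (h1 : NNc h φ n) (h2 : NNc h ψ m) : NNc h (φ * ψ) (n + m) :=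
  ⟨Subgroup.mul_mem _ h1.1 h2.1, nnc_cls h h1 h2.2⟩

theorem nnc_inv (h : Cfg H K a b c) {φ : Perm (Pt H) × Perm (Pt H)} {n : EE h}
    (h1 : NNc h φ n) : NNc h φ⁻¹ (-n) := by
  obtain ⟨m, hm⟩ := nnc_exists h (Subgroup.inv_mem _ h1.1)
  have h2 := nnc_mul h h1 hm
  rw [mul_inv_cancel] at h2
  have h3 : NNc h (1 : Perm (Pt H) × Perm (Pt H)) 0 := ⟨Subgroup.one_mem _, isC_pa h⟩
  have h4 := nnc_uniq h h2 h3
  rw [neg_eq_of_add_eq_zero_right h4]
  exact hm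

theorem perp_pa_pc_fix (h : Cfg H K a b c) {φ : Perm (Pt H) × Perm (Pt H)}
    (hφ : φ ∈ (inc H K).NN h.pa) {y : Pt H} (hy : (inc H K).perp h.pa y) : φ.1 y = y :=
  (h.geo.NN_col hφ).2 y hy

/-- The action on the lines `b γ`. -/
theorem nnc_line (h : Cfg H K a b c) {φ : Perm (Pt H) × Perm (Pt H)} {n : EE h} (hn : NNc h φ n)
    (γ : J h) : φ.2 (J.bp h γ) = J.bp h (n.1 + γ) := by
  have hg := h.geo
  have hcol := (hg.NN_col hn.1).1
  have e1 : ¬ (inc H K).st (J.ap h γ) h.pc := fun e =>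
    nst_ac h (hg.st_trans _ _ _ (J.st_a h γ) e)
  have h1 := nnc_cls h hn ((part3_coor G H K a b c h).2.2.2.2.2.1 γ)
  rw [← J.cr_ac h γ, hg.col_cr hcol e1, perp_pa_pc_fix h hn.1 h.pac]
  have e2 : ¬ (inc H K).st (φ.1 (J.ap h γ)) h.pc := fun e =>
    nst_ac h (hg.st_trans _ _ _ h1.s e)
  exact (hg.uniq _ _ _ e2 h1.p (hg.perp_symm _ _ (J.perp_bc h (n.1 + γ)))).symm

theorem nnc_first (h : Cfg H K a b c) {φ : Perm (Pt H) × Perm (Pt H)} {n : EE h}
    (hn : NNc h φ n) {z : Pt H} {γ : J h} (hz : (inc H K).perp z (J.bp h γ)) :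
    (inc H K).perp (φ.1 z) (J.bp h (n.1 + γ)) := by
  rw [← nnc_line h hn]
  exact ((h.geo.NN_col hn.1).1.inc _ _).1 hz

theorem nn_conj (h : Cfg H K a b c) {s : Perm (Pt H)} (hσ : (inc H K).Col (s, s))
    (hpa : s h.pa = h.pa) {φ : Perm (Pt H) × Perm (Pt H)} (hφ : φ ∈ (inc H K).NN h.pa) :
    ((s, s) * φ * (s, s)⁻¹ : Perm (Pt H) × Perm (Pt H)) ∈ (inc H K).NN h.pa := by
  refine Subgroup.closure_induction (p := fun φ _ =>
    ((s, s) * φ * (s, s)⁻¹ : Perm (Pt H) × Perm (Pt H)) ∈ (inc H K).NN h.pa) ?_ ?_ ?_ ?_ hφ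
  · rintro φ ⟨v, hv⟩
    have h1 := (part1_eqv _ _ h.geo).1 (s, s) hσ _ _ φ hv
    have e : ((s, s) : Perm (Pt H) × Perm (Pt H)).2 h.pa = h.pa := hpa
    rw [e] at h1
    exact Subgroup.subset_closure ⟨_, h1⟩
  · rw [mul_one, mul_inv_cancel]
    exact Subgroup.one_mem _
  · intro φ ψ _ _ e1 e2
    have e3 : ((s, s) * (φ * ψ) * (s, s)⁻¹ : Perm (Pt H) × Perm (Pt H)) =
      ((s, s) * φ * (s, s)⁻¹) * ((s, s) * ψ * (s, s)⁻¹) := by group
    rw [e3]
    exact Subgroup.mul_mem _ e1 e2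
  · intro φ _ e1
    have e3 : ((s, s) * φ⁻¹ * (s, s)⁻¹ : Perm (Pt H) × Perm (Pt H)) =
      ((s, s) * φ * (s, s)⁻¹)⁻¹ := by group
    rw [e3]
    exact Subgroup.inv_mem _ e1

/-! ### Vectors between points of type `a` -/

/-- `z' - z = n`. -/
def Vec (h : Cfg H K a b c) (z z' : Pt H) (n : EE h) : Prop :=
  ∃ φ, NNc h φ n ∧ φ.1 z = z'

theorem Vec.conj (h : Cfg H K a b c) {s : Perm (Pt H)} (hσ : (inc H K).Col (s, s))
    (hpa : s h.pa = h.pa) {R : AddMonoid.End (EE h)} (hR : Rep h s R) {z z' : Pt H} {n : EE h}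
    (hv : Vec h z z' n) : Vec h (s z) (s z') (R n) := by
  obtain ⟨φ, h1, rfl⟩ := hv
  refine ⟨(s, s) * φ * (s, s)⁻¹, ⟨nn_conj h hσ hpa h1.1, ?_⟩, ?_⟩
  · have e : ((s, s) * φ * (s, s)⁻¹ : Perm (Pt H) × Perm (Pt H)).1 h.pa = s (φ.1 h.pa) := by
      show s (φ.1 (s.symm h.pa)) = s (φ.1 h.pa)
      have : s.symm h.pa = h.pa := by
        rw [Equiv.symm_apply_eq, hpa]
      rw [this]
    rw [e]
    exact hR _ _ _ h1.2
  · show s (φ.1 (s.symm (s z))) = s (φ.1 z)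
    rw [Equiv.symm_apply_apply]

theorem Vec.trans (h : Cfg H K a b c) {z z' z'' : Pt H} {n m : EE h} (h1 : Vec h z z' n)
    (h2 : Vec h z' z'' m) : Vec h z z'' (m + n) := by
  obtain ⟨φ, e1, rfl⟩ := h1
  obtain ⟨ψ, e2, rfl⟩ := h2
  exact ⟨ψ * φ, nnc_mul h e2 e1, rfl⟩

theorem Vec.symm (h : Cfg H K a b c) {z z' : Pt H} {n : EE h} (h1 : Vec h z z' n) :
    Vec h z' z (-n) := by
  obtain ⟨φ, e1, rfl⟩ := h1
  exact ⟨φ⁻¹, nnc_inv h e1, φ.1.symm_apply_apply z⟩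

theorem Vec.first (h : Cfg H K a b c) {z z' : Pt H} {n : EE h} (h1 : Vec h z z' n) {γ : J h}
    (hz : (inc H K).perp z (J.bp h γ)) : (inc H K).perp z' (J.bp h (n.1 + γ)) := by
  obtain ⟨φ, e1, rfl⟩ := h1
  exact nnc_first h e1 hz

/-- Two points with the same second coordinate. -/
theorem Vec.diff (h : Cfg H K a b c) {z z' : Pt H} (hz' : (inc H K).st h.pa z') {q : G}
    (hq : XA K b q) (h1 : (inc H K).perp z (cq h hq))
    (h2 : (inc H K).perp z' (cq h hq)) {γ γ' : J h} (h3 : (inc H K).perp z (J.bp h γ))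
    (h4 : (inc H K).perp z' (J.bp h γ')) : Vec h z z' (γ' - γ, 0) := by
  have hg := h.geo
  obtain ⟨ψ, hψ, e1, -⟩ := J.exists_trl' h (γ' - γ)
  have hn : NNc h ψ (γ' - γ, 0) := by
    refine ⟨Subgroup.subset_closure ⟨_, hψ⟩, ?_⟩
    rw [e1]
    exact (part3_coor G H K a b c h).2.2.2.2.2.1 _
  refine ⟨ψ, hn, ?_⟩
  have h5 := nnc_first h hn h3
  rw [sub_add_cancel] at h5
  have h6 : (inc H K).perp (ψ.1 z) (cq h hq) := by
    have := ((hg.nn_col hψ).inc _ _).1 h1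
    rwa [(hg.nn_tt hψ).lns _ (hg.perp_symm _ _ (perp_cq_pb h hq))] at this
  have hn' : ¬ (inc H K).st (J.bp h γ') (cq h hq) := fun e => nst_bc h
    (hg.st_trans _ _ _ (hg.st_trans _ _ _ (J.st_b h γ') e) (hg.st_symm _ _ (st_cq h hq)))
  have e2 := hg.uniq _ _ _ hn' (hg.perp_symm _ _ h5) (hg.perp_symm _ _ h6)
  have e3 := hg.uniq _ _ _ hn' (hg.perp_symm _ _ h4) (hg.perp_symm _ _ h2)
  rw [e2, ← e3]

/-! ### Uniqueness modulo the centralizer of `C_K(a)` -/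

/-- (U): an element of `NN a` which fixes `a q` acts on the class of `a` as a translation by an
element of `J_b` commuting with `C_K(a)`. -/
theorem nnc_fix (h : Cfg H K a b c) {q : G} (hq : XA K b q) {φ : Perm (Pt H) × Perm (Pt H)}
    {n : EE h} (hn : NNc h φ n) (hf : φ.1 (aq h hq) = aq h hq) :
    n.1 = 0 ∧ ∀ α, XA K a α → α * n.2.1 = n.2.1 * α := by
  have hg := h.geo
  have hcol := (hg.NN_col hn.1).1
  have h1 : n.1 = 0 := by
    have e1 : (inc H K).perp (aq h hq) (J.bp h 0) := by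
      rw [J.bp_zero]; exact perp_aq_pb h hq
    have e2 := nnc_first h hn e1
    rw [hf, add_zero] at e2
    exact first_uniq h (st_aq h hq) e2 e1
  refine ⟨h1, fun α hα => ?_⟩
  -- the point `a β = φ a`
  have h2 : φ.1 h.pa = J.bp h.rot.rot n.2 := by
    obtain ⟨c1, c2, c3, c4, c5, c6, c7⟩ := part3_coor G H K a b c h
    refine c5 _ _ _ _ hn.2 ?_
    rw [h1]
    exact c7 n.2
  -- the point `c α` on the line `a`
  set y : Pt H := aq h.rot.rot hα with hy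
  have hyv : y.1 = c * α := rfl
  have sy : (inc H K).st h.pc y := st_aq h.rot.rot hα
  have py : (inc H K).perp y h.pa := perp_aq_pb h.rot.rot hα
  have fy : φ.1 y = y := perp_pa_pc_fix h hn.1 (hg.perp_symm _ _ py)
  have nay : ¬ (inc H K).st (aq h hq) y := fun e => nst_ac h
    (hg.st_trans _ _ _ (hg.st_trans _ _ _ (st_aq h hq) e) (hg.st_symm _ _ sy))
  set ℓ : Pt H := (inc H K).cr (aq h hq) y with hℓ
  have pℓ1 : (inc H K).perp (aq h hq) ℓ := hg.cr_l _ _ nay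
  have pℓ2 : (inc H K).perp y ℓ := hg.cr_r _ _ nay
  have fℓ : φ.2 ℓ = ℓ := by
    rw [hℓ, hg.col_cr hcol nay, hf, fy]
  obtain ⟨t, ht, hs⟩ := hg.label
  have i1 := nst_ab h
  have i2 := nst_bc h
  have i3 := nst_ac h
  have i4 := hg.perp_st _ _ pℓ1
  have i5 := hg.perp_st _ _ pℓ2
  have i6 := st_aq h hq
  have tb : (inc H K).st h.pb ℓ := by
    have := ht h.pa; have := ht h.pb; have := ht h.pc; have := ht ℓ; have := ht y
    have := ht (aq h hq)
    rw [hs] at *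
    omega
  have nℓc : ¬ (inc H K).st ℓ h.pc := fun e => nst_bc h (hg.st_trans _ _ _ tb e)
  set z0 : Pt H := (inc H K).cr ℓ h.pc with hz0
  have pz1 : (inc H K).perp ℓ z0 := hg.cr_l _ _ nℓc
  have pz2 : (inc H K).perp h.pc z0 := hg.cr_r _ _ nℓc
  have ta : (inc H K).st h.pa z0 := by
    have i7 := hg.perp_st _ _ pz1
    have i8 := hg.perp_st _ _ pz2
    have := ht h.pa; have := ht h.pb; have := ht h.pc; have := ht ℓ; have := ht z0
    rw [hs] at *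
    omega
  have sz0 : (inc H K).sim h.pa z0 := by
    refine Relation.EqvGen.rel _ _ ⟨h.pc, h.pb, ℓ, aq h hq, h.pca, pz2, st_aq h hq, h.pba,
      hg.perp_symm _ _ (perp_aq_pb h hq), hg.perp_symm _ _ pℓ1, pz1, tb, nst_bc h⟩
  obtain ⟨⟨τ, hτ, e1, -⟩, -⟩ := part1_line _ _ hg h.lemF h.pb h.pa h.pc z0 h.pba h.pac h.pbc sz0
    (hg.perp_symm _ _ pz2)
  have hτN : τ ∈ (inc H K).NN h.pa := Subgroup.subset_closure ⟨_, hτ⟩
  have e2 := part1_ncom _ _ hg h.lemF h.pa φ τ hn.1 hτN h.pa (hg.st_refl _)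
  rw [e1, h2] at e2
  -- the line `b α`
  have pay : ¬ (inc H K).st h.pa y := fun e => hg.perp_st _ _ py (hg.st_symm _ _ e)
  set m : Pt H := (inc H K).cr h.pa y with hm
  have hmv : m.1 = b * α := by
    rw [hm, h.cr_val (hg.perp_symm _ _ py)]
    show a * (c * α) = b * α
    rw [← mul_assoc, h.ac]
  have fm : τ.2 m = ℓ := by
    rw [hm, hg.col_cr (hg.nn_col hτ) pay, e1, (hg.nn_tt hτ).pts y (hg.perp_symm _ _ py)]
    have nz : ¬ (inc H K).st z0 y := fun e => pay (hg.st_trans _ _ _ ta e)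
    exact (hg.uniq _ _ _ nz (hg.perp_symm _ _ pz1) pℓ2).symm
  have e3 : (inc H K).perp (φ.1 z0) ℓ := by
    have := (hcol.inc _ _).1 (hg.perp_symm _ _ pz1)
    rwa [fℓ] at this
  rw [e2, ← fm] at e3
  have e4 := (((hg.nn_col hτ).inc _ _).2 e3).1
  rw [hmv, J.bp_val] at e4
  -- `a β b α = b α a β`
  have e5 : n.2.1 * b = b * n.2.1 := n.2.2.2
  have e6 : α * a = a * α := hα.2
  have e7 : a * n.2.1 * (b * α) = c * (n.2.1 * α) := by
    calc a * n.2.1 * (b * α) = a * (n.2.1 * b) * α := by group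
      _ = a * b * (n.2.1 * α) := by rw [e5]; group
      _ = c * (n.2.1 * α) := by rw [h.ab]
  have e8 : b * α * (a * n.2.1) = c * (α * n.2.1) := by
    calc b * α * (a * n.2.1) = b * (α * a) * n.2.1 := by group
      _ = b * a * (α * n.2.1) := by rw [e6]; group
      _ = c * (α * n.2.1) := by rw [h.ba]
  rw [e7, e8] at e4
  exact (mul_left_cancel e4).symm

/-- Uniqueness of vectors between points of the class of `a q`. -/
theorem Vec.uniq (h : Cfg H K a b c) {q : G} (hq : XA K b q) {z z' : Pt H}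
    (hs : (inc H K).sim (aq h hq) z) {n m : EE h} (h1 : Vec h z z' n) (h2 : Vec h z z' m) :
    n.1 = m.1 ∧ ∀ α, XA K a α → α * (n.2 - m.2).1 = (n.2 - m.2).1 * α := by
  obtain ⟨φ, e1, e2⟩ := h1
  obtain ⟨ψ, e3, e4⟩ := h2
  have h5 := nnc_mul h (nnc_inv h e3) e1
  have e6 : (ψ⁻¹ * φ).1 z = z := by
    show ψ.1.symm (φ.1 z) = z
    rw [e2, ← e4, Equiv.symm_apply_apply]
  have st1 : (inc H K).st z h.pa := h.geo.st_trans _ _ _ (h.geo.st_symm _ _ (h.geo.sim_st hs))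
    (h.geo.st_symm _ _ (st_aq h hq))
  have e7 := (part1_reg _ _ h.geo h.lemF).1 h.pa _ z (aq h hq) h5.1 st1 e6
    (Inc.IsGeo.sim_symm hs)
  obtain ⟨e8, e9⟩ := nnc_fix h hq h5 e7
  refine ⟨?_, ?_⟩
  · have : -m.1 + n.1 = 0 := e8
    exact (neg_add_eq_zero.1 this).symm
  · intro α hα
    have h10 := e9 α hα
    have e11 : (-m + n).2 = n.2 - m.2 := by
      show -m.2 + n.2 = n.2 - m.2
      rw [sub_eq_add_neg, add_comm]
    rwa [e11] at h10

end Pool.Agent.FourGp.H71
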