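import Pool.Agent.Lib.MP_fb3619_al.H71.Gx

/-!
# MP_fb3619_al, LEMMA Y, part 3: the rules for `g(x, q)`
-/

set_option autoImplicit false

universe u

namespace Pool.Agent.FourGp.H71

open Equiv
open Pool.Agent.FourGp.H18 (EE Rep rep_unique rep_mul rep_one rep_pow eps eps_apply eps_eps no2
  cb cb_val rep_cb cb_cb)

variable {G : Type u} [Group G] {H K : Subgroup G} {a b c : G}

/-- `(a q)^x`. -/
def px (h : Cfg H K a b c) {x q : G} (hx : XA K a x) (hq : XA K b q) : Pt H :=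
  cjx h hx.1 (aq h hq)

theorem px_val (h : Cfg H K a b c) {x q : G} (hx : XA K a x) (hq : XA K b q) :
    (px h hx hq).1 = x⁻¹ * (a * q) * x := rfl

theorem px_sim (h : Cfg H K a b c) {x q : G} (hx : XA K a x) (hq : XA K b q) :
    (inc H K).sim (aq h hq) (px h hx hq) :=
  part1_btri G H K a b c h h.pa ⟨x, h.le hx.1⟩ hx.1 hx.2.symm (aq h hq)
    (h.geo.st_symm _ _ (st_aq h hq))

theorem px_st (h : Cfg H K a b c) {x q : G} (hx : XA K a x) (hq : XA K b q) :
    (inc H K).st h.pa (px h hx hq) :=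
  h.geo.st_trans _ _ _ (st_aq h hq) (h.geo.sim_st (px_sim h hx hq))

/-- The first coordinate exists in the class of `a q`. -/
theorem first_exists (h : Cfg H K a b c) {q : G} (hq : XA K b q) {z : Pt H}
    (hs : (inc H K).sim (aq h hq) z) : ∃ γ : J h, (inc H K).perp z (J.bp h γ) := by
  have hg := h.geo
  have h1 := (part1_proj _ _ hg h.lemF).1 h.pc h.pc (aq h hq) z hs
    (fun e => nst_ac h (hg.st_symm _ _ (hg.st_trans _ _ _ e (hg.st_symm _ _ (st_aq h hq)))))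
    (hg.st_refl _)
  have n1 : ¬ (inc H K).st (aq h hq) h.pc := fun e => nst_ac h (hg.st_trans _ _ _ (st_aq h hq) e)
  have e1 : (inc H K).cr (aq h hq) h.pc = h.pb :=
    (hg.uniq _ _ _ n1 (perp_aq_pb h hq) h.pcb).symm
  have e2 : (inc H K).pr h.pc h.pc (aq h hq) = h.pa := by
    show (inc H K).cr ((inc H K).cr (aq h hq) h.pc) h.pc = h.pa
    rw [e1, cr_pb_pc h]
  rw [e2] at h1
  have sz : (inc H K).st h.pa z := hg.st_trans _ _ _ (st_aq h hq) (hg.sim_st hs)
  have n2 : ¬ (inc H K).st z h.pc := fun e => nst_ac h (hg.st_trans _ _ _ sz e)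
  set y1 : Pt H := (inc H K).cr z h.pc with hy1
  have p1 : (inc H K).perp z y1 := hg.cr_l _ _ n2
  have p2 : (inc H K).perp h.pc y1 := hg.cr_r _ _ n2
  have n3 : ¬ (inc H K).st y1 h.pc := fun e => hg.perp_st _ _ p2 (hg.st_symm _ _ e)
  have h2 : (inc H K).sim h.pa ((inc H K).cr y1 h.pc) := h1
  have p3 : (inc H K).perp y1 ((inc H K).cr y1 h.pc) := hg.cr_l _ _ n3
  have p4 : (inc H K).perp h.pc ((inc H K).cr y1 h.pc) := hg.cr_r _ _ n3
  obtain ⟨-, h3⟩ := part1_line _ _ hg h.lemF h.pb h.pa h.pc _ h.pba h.pac h.pbc h2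
    (hg.perp_symm _ _ p4)
  have n4 : ¬ (inc H K).st ((inc H K).cr y1 h.pc) h.pc := fun e =>
    nst_ac h (hg.st_trans _ _ _ (hg.sim_st h2) e)
  have e3 : (inc H K).cr ((inc H K).cr y1 h.pc) h.pc = y1 :=
    (hg.uniq _ _ _ n4 (hg.perp_symm _ _ p3) p2).symm
  rw [e3] at h3
  refine ⟨J.ofb h y1 h3 (hg.perp_symm _ _ p2), ?_⟩
  rw [J.bp_ofb]
  exact p1

theorem exists_g (h : Cfg H K a b c) {x q : G} (hx : XA K a x) (hq : XA K b q) :
    ∃ γ : J h, (inc H K).perp (px h hx hq) (J.bp h γ) :=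
  first_exists h hq (px_sim h hx hq)

open Classical in
/-- The function `g(x, q)`. -/
noncomputable def gq (h : Cfg H K a b c) (x q : G) : J h :=
  if hh : XA K a x ∧ XA K b q then Classical.choose (exists_g h hh.1 hh.2) else 0

theorem gq_spec (h : Cfg H K a b c) {x q : G} (hx : XA K a x) (hq : XA K b q) :
    (inc H K).perp (px h hx hq) (J.bp h (gq h x q)) := by
  unfold gq
  rw [dif_pos ⟨hx, hq⟩]
  exact Classical.choose_spec (exists_g h hx hq)

theorem gq_eq (h : Cfg H K a b c) {x q : G} (hx : XA K a x) (hq : XA K b q) {γ : J h}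
    (e : (inc H K).perp (px h hx hq) (J.bp h γ)) : gq h x q = γ :=
  first_uniq h (px_st h hx hq) (gq_spec h hx hq) e

/-- On `J_b` it is `S_x`. -/
theorem gq_Sb (h : Cfg H K a b c) {x : G} (hx : XA K a x) (β : J h.rot.rot) :
    gq h x β.1 = Sb h x β := by
  have hq : XA K b β.1 := J.xa β
  refine gq_eq h hx hq ?_
  have h1 := (part3_coor G H K a b c h).2.2.2.2.2.2 β
  have h2 := Rm_rep h hx _ _ _ h1
  have e : px h hx hq = cjx h hx.1 (J.bp h.rot.rot β) := rfl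
  rw [e]
  exact h2.p

/-- `b`-symmetry. -/
theorem px_cb (h : Cfg H K a b c) {x q : G} (hx : XA K a x) (hq : XA K b q) :
    px h hx.inv hq = cb h (px h hx hq) := by
  apply Subtype.ext
  rw [cb_val, px_val, px_val]
  have hb' : b⁻¹ = b := inv_eq_of_mul_eq_one_right h.hbb
  have h1 := inv_ba h hx
  have h2 : b * x⁻¹ * b = x := by
    rw [← h1]
    calc b * (b * x * b) * b = (b * b) * x * (b * b) := by group
      _ = x := by rw [h.hbb]; group
  have h3 : b * (a * q) * b = a * q := by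
    calc b * (a * q) * b = b * a * (q * b) := by group
      _ = b * a * (b * q) := by rw [hq.2]
      _ = a * (b * b) * q := by rw [h.ba, ← h.ab]; group
      _ = a * q := by rw [h.hbb, mul_one]
  rw [hb', inv_inv]
  calc x * (a * q) * x⁻¹ = (b * x⁻¹ * b) * (b * (a * q) * b) * (b * x * b) := by
        rw [h1, h2, h3]
    _ = b * x⁻¹ * (b * b) * (a * q) * (b * b) * x * b := by group
    _ = b * (x⁻¹ * (a * q) * x) * b := by rw [h.hbb]; group

theorem cb_col (h : Cfg H K a b c) : (inc H K).Col (cb h, cb h) :=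
  part1_cjc G H K a b c h ⟨b, h.hb⟩

theorem cb_bp (h : Cfg H K a b c) (γ : J h) : cb h (J.bp h γ) = J.bp h (-γ) := by
  apply Subtype.ext
  rw [cb_val, J.bp_val, J.bp_val, (part2_neg G H K a b c h).1 γ, ← h.mul_b γ.memK γ.2.2]
  group

theorem cb_cq (h : Cfg H K a b c) {q : G} (hq : XA K b q) : cb h (cq h hq) = cq h hq := by
  apply Subtype.ext
  rw [cb_val, cq_val]
  have hb' : b⁻¹ = b := inv_eq_of_mul_eq_one_right h.hbb
  rw [hb']
  calc b * (c * q) * b = b * c * (q * b) := by group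
    _ = a * (b * q) := by rw [h.bc, hq.2]
    _ = a * b * q := by group
    _ = c * q := by rw [h.ab]

theorem gq_inv (h : Cfg H K a b c) {x q : G} (hx : XA K a x) (hq : XA K b q) :
    gq h x⁻¹ q = -gq h x q := by
  refine gq_eq h hx.inv hq ?_
  rw [px_cb h hx hq, ← cb_bp]
  exact ((cb_col h).inc _ _).1 (gq_spec h hx hq)

/-- Every point of type `a` has a second coordinate in `C_K(b)`. -/
theorem second_exists (h : Cfg H K a b c) {z : Pt H} (hz : (inc H K).st h.pa z) :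
    ∃ (β : G) (hβ : XA K b β), (inc H K).perp z (cq h hβ) := by
  have hg := h.geo
  have n1 : ¬ (inc H K).st z h.pb := fun e => nst_ab h (hg.st_trans _ _ _ hz e)
  set y : Pt H := (inc H K).cr z h.pb with hy
  have p1 : (inc H K).perp z y := hg.cr_l _ _ n1
  have p2 : (inc H K).perp h.pb y := hg.cr_r _ _ n1
  have ty : (inc H K).st h.pc y := by
    obtain ⟨t, ht, hs⟩ := hg.label
    have i1 := nst_ab h
    have i2 := nst_bc h
    have i3 := nst_ac h
    have i4 := hg.perp_st _ _ p1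
    have i5 := hg.perp_st _ _ p2
    have := ht h.pa; have := ht h.pb; have := ht h.pc; have := ht y; have := ht z
    rw [hs] at *
    omega
  have hβ : XA K b (c * y.1) := by
    refine ⟨ty, ?_⟩
    have e : b * y.1 = y.1 * b := p2.1
    calc c * y.1 * b = c * (y.1 * b) := by group
      _ = c * b * y.1 := by rw [← e]; group
      _ = b * (c * y.1) := by rw [h.cb, ← h.bc]; group
  refine ⟨c * y.1, hβ, ?_⟩
  have e : cq h hβ = y := by
    apply Subtype.ext
    rw [cq_val, ← mul_assoc, h.hcc, one_mul]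
  rw [e]
  exact p1

/-- The vector from `(a q)^{x⁻¹}` to `(a q)^x`. -/
theorem vec_inv (h : Cfg H K a b c) {x q : G} (hx : XA K a x) (hq : XA K b q) :
    Vec h (px h hx.inv hq) (px h hx hq) (gq h x q + gq h x q, 0) := by
  obtain ⟨β, hβ, h1⟩ := second_exists h (px_st h hx hq)
  have h2 : (inc H K).perp (px h hx.inv hq) (cq h hβ) := by
    rw [px_cb h hx hq, ← cb_cq h hβ]
    exact ((cb_col h).inc _ _).1 h1
  have h3 := Vec.diff h (px_st h hx hq) hβ h2 h1 (gq_spec h hx.inv hq) (gq_spec h hx hq)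
  rw [gq_inv h hx hq, sub_neg_eq_add] at h3
  exact h3

theorem cjx_px (h : Cfg H K a b c) {x y q : G} (hx : XA K a x) (hy : XA K a y)
    (hq : XA K b q) : cjx h hx.1 (px h hy hq) = px h (hy.mul hx) hq := by
  apply Subtype.ext
  rw [cjx_val, px_val, px_val]
  group

/-- The same vector moved by `x`. -/
theorem vec_mul (h : Cfg H K a b c) {x y q : G} (hx : XA K a x) (hy : XA K a y)
    (hq : XA K b q) : Vec h (px h (hy.inv.mul hx) hq) (px h (hy.mul hx) hq)
      (Cc h x (gq h y q + gq h y q), Sc h x (gq h y q + gq h y q)) := by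
  have h1 := Vec.conj h (cjx_col h hx.1) (cjx_pa h hx) (Rm_rep h hx) (vec_inv h hy hq)
  rw [cjx_px h hx hy.inv hq, cjx_px h hx hy hq, Rm_c] at h1
  exact h1

/-- (★) -/
theorem gq_star (h : Cfg H K a b c) {x y q : G} (hx : XA K a x) (hy : XA K a y)
    (hq : XA K b q) : gq h (y * x) q = Cc h x (gq h y q + gq h y q) + gq h (y⁻¹ * x) q := by
  refine gq_eq h (hy.mul hx) hq ?_
  exact (vec_mul h hx hy hq).first h (gq_spec h (hy.inv.mul hx) hq)

/-- (G1) -/
theorem gq_mul (h : Cfg H K a b c) {x y q : G} (hx : XA K a x) (hy : XA K a y)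
    (hq : XA K b q) : gq h (x * y) q = Cc h x (gq h y q) + Cc h y (gq h x q) := by
  apply no2c h
  have h1 := gq_star h hx hy hq
  have h2 := gq_star h hy hx hq
  have h3 : gq h (x⁻¹ * y) q = -gq h (y⁻¹ * x) q := by
    rw [← gq_inv h (hy.inv.mul hx) hq]
    congr 1
    group
  rw [XA.comm h hy hx] at h1
  rw [h3] at h2
  rw [map_add] at h1 h2
  nth_rewrite 1 [h1]
  rw [h2]
  abel

/-- Elements of `J_b` commuting with `C_K(a)`. -/
def Zb (h : Cfg H K a b c) (β : J h.rot.rot) : Prop := ∀ α, XA K a α → α * β.1 = β.1 * α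

/-- (G3), zero. -/
theorem gq_zero (h : Cfg H K a b c) {x q : G} (hx : XA K a x) (hq : XA K b q)
    (e : gq h x q = 0) : x * q = q * x := by
  have h1 := (gq_spec h hx hq).1
  rw [e, J.bp_zero, px_val] at h1
  change x⁻¹ * (a * q) * x * b = b * (x⁻¹ * (a * q) * x) at h1
  have hb : x * b = b * x⁻¹ := h.rot.mul_a hx.1 hx.2
  -- `a q` commutes with `x b x⁻¹ = b x⁻²`
  have c1 : Commute (a * q) (b * (x⁻¹ * x⁻¹)) := by
    have e1 : b * (x⁻¹ * x⁻¹) = x * b * x⁻¹ := by rw [hb]; group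
    rw [e1]
    show a * q * (x * b * x⁻¹) = x * b * x⁻¹ * (a * q)
    calc a * q * (x * b * x⁻¹) = x * (x⁻¹ * (a * q) * x * b) * x⁻¹ := by group
      _ = x * (b * (x⁻¹ * (a * q) * x)) * x⁻¹ := by rw [h1]
      _ = _ := by group
  have c2 : Commute (a * q) b := by
    show a * q * b = b * (a * q)
    rw [mul_assoc, hq.2, ← mul_assoc, ← mul_assoc, h.ab, h.ba]
  have c3 : Commute (a * q) (x⁻¹ * x⁻¹) := by
    have e1 : x⁻¹ * x⁻¹ = b⁻¹ * (b * (x⁻¹ * x⁻¹)) := by group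
    rw [e1]
    exact c2.inv_right.mul_right c1
  have c4 : Commute a (x⁻¹ * x⁻¹) := by
    have : Commute a x := hx.2.symm
    exact this.inv_right.mul_right this.inv_right
  have c5 : Commute q (x⁻¹ * x⁻¹) := by
    have e1 : q = a⁻¹ * (a * q) := by group
    rw [e1]
    exact c4.inv_left.mul_left c3
  obtain ⟨n, hn⟩ := h.odd x hx.1
  have e2 : ((x⁻¹ * x⁻¹) ^ (n + 1))⁻¹ = x := by
    rw [← pow_two, ← pow_mul, show 2 * (n + 1) = (2 * n + 1) + 1 by ring, pow_succ, inv_pow, hn,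
      inv_one, one_mul, inv_inv]
  have c6 : Commute q x := by
    rw [← e2]
    exact (c5.pow_right _).inv_right
  exact c6.symm.eq

theorem gq_zero' (h : Cfg H K a b c) {x q : G} (hx : XA K a x) (hq : XA K b q)
    (e : x * q = q * x) : gq h x q = 0 := by
  refine gq_eq h hx hq ?_
  have : px h hx hq = aq h hq := by
    apply Subtype.ext
    rw [px_val, aq_val]
    calc x⁻¹ * (a * q) * x = x⁻¹ * a * (q * x) := by group
      _ = x⁻¹ * (a * x) * q := by rw [← e]; group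
      _ = a * q := by rw [← hx.2]; group
  rw [this, J.bp_zero]
  exact perp_aq_pb h hq

/-- `Z_b` in terms of `S`. -/
theorem Zb_iff (h : Cfg H K a b c) (β : J h.rot.rot) :
    Zb h β ↔ ∀ α, XA K a α → Sb h α β = 0 := by
  constructor
  · intro hz α hα
    rw [← gq_Sb h hα]
    exact gq_zero' h hα (J.xa β) (hz α hα)
  · intro hz α hα
    refine gq_zero h hα (J.xa β) ?_
    rw [gq_Sb h hα]
    exact hz α hα

/-- (G2) -/
theorem gq_two (h : Cfg H K a b c) {x y q : G} (hx : XA K a x) (hy : XA K a y)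
    (hq : XA K b q) : Zb h (Sc h x (gq h y q) - Sc h y (gq h x q)) := by
  have h1 := vec_mul h hx hy hq
  have h2 := vec_mul h hy hx hq
  -- from `(x⁻¹ y)` to `(y⁻¹ x)`
  have h3 := vec_inv h (hy.inv.mul hx) hq
  have e1 : px h (hy.inv.mul hx).inv hq = px h (hx.inv.mul hy) hq := by
    apply Subtype.ext
    rw [px_val, px_val]
    group
  have e2 : px h (hx.mul hy) hq = px h (hy.mul hx) hq := by
    apply Subtype.ext
    rw [px_val, px_val, XA.comm h hx hy]
  rw [e1] at h3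
  rw [e2] at h2
  have h4 := Vec.trans h h3 h1
  obtain ⟨-, h5⟩ := Vec.uniq h hq (px_sim h (hx.inv.mul hy) hq) h4 h2
  have e3 : (((Cc h x (gq h y q + gq h y q), Sc h x (gq h y q + gq h y q)) : EE h) +
      (gq h (y⁻¹ * x) q + gq h (y⁻¹ * x) q, 0)).2 = Sc h x (gq h y q + gq h y q) := by
    show Sc h x (gq h y q + gq h y q) + 0 = _
    rw [add_zero]
  rw [e3] at h5
  have h6 : Zb h (Sc h x (gq h y q + gq h y q) - Sc h y (gq h x q + gq h x q)) := h5
  rw [Zb_iff] at h6 ⊢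
  intro α hα
  have h7 := h6 α hα
  apply no2c h
  rw [add_zero, ← map_add]
  rw [map_add, map_add] at h7
  rw [← h7]
  congr 1
  abel

/-- (G3), in `x`. -/
theorem gq_inj (h : Cfg H K a b c) {x y q : G} (hx : XA K a x) (hy : XA K a y)
    (hq : XA K b q) (e : gq h x q = gq h y q) : (y * x⁻¹) * q = q * (y * x⁻¹) := by
  -- `y x⁻¹ = w²`
  have hr : XA K a (y * x⁻¹) := hy.mul hx.inv
  obtain ⟨n, hn⟩ := h.odd _ hr.1
  set w : G := (y * x⁻¹) ^ (n + 1) with hw
  have hww : w * w = y * x⁻¹ := by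
    rw [hw, ← pow_add, show n + 1 + (n + 1) = (2 * n + 1) + 1 by ring, pow_succ, hn, one_mul]
  have hwx : XA K a w := hr.pow _
  -- `u = x w`
  have hu : XA K a (w * x) := hwx.mul hx
  have h1 := gq_star h hu hwx hq
  have e1 : w * (w * x) = y := by rw [← mul_assoc, hww]; group
  have e2 : w⁻¹ * (w * x) = x := by group
  rw [e1, e2, ← e] at h1
  have h2 : Cc h (w * x) (gq h w q + gq h w q) = 0 := by
    exact add_eq_right.mp h1.symm
  have h3 := Cc_inj h hu h2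
  have h4 : gq h w q = 0 := (part2_neg G H K a b c h).2 _ h3
  have h5 : Commute w q := gq_zero h hwx hq h4
  rw [← hww]
  exact h5.mul_left h5

/-- (G3), in `q`. -/
theorem gq_inj' (h : Cfg H K a b c) {x q q' : G} (hx : XA K a x) (hq : XA K b q)
    (hq' : XA K b q') (e : gq h x q = gq h x q') : x * (q⁻¹ * q') = (q⁻¹ * q') * x := by
  obtain ⟨g, hg⟩ : ∃ g, gq h x q = g := ⟨_, rfl⟩
  have h1 := (gq_spec h hx hq).1
  have h2 := (gq_spec h hx hq').1
  rw [← e] at h2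
  rw [hg, px_val, J.bp_val] at h1
  rw [hg, px_val, J.bp_val] at h2
  have gK : g.1 ∈ K := g.memK
  have gc : g.1 * c = c * g.1 := g.2.2
  have gb : g.1 * b = b * g.1⁻¹ := h.mul_b gK gc
  have hb : x * b = b * x⁻¹ := h.rot.mul_a hx.1 hx.2
  set r : G := q⁻¹ * q' with hr
  have hrX : XA K b r := hq.inv.mul hq'
  -- `a q` and `a q'` commute with `x (b g) x⁻¹ = b x⁻¹ g x⁻¹`
  have c1 : ∀ p : G, x⁻¹ * p * x * (b * g.1) = b * g.1 * (x⁻¹ * p * x) →
      Commute p (b * (x⁻¹ * g.1 * x⁻¹)) := by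
    intro p hp
    have e1 : b * (x⁻¹ * g.1 * x⁻¹) = x * (b * g.1) * x⁻¹ := by
      calc b * (x⁻¹ * g.1 * x⁻¹) = b * x⁻¹ * g.1 * x⁻¹ := by group
        _ = x * b * g.1 * x⁻¹ := by rw [hb]
        _ = _ := by group
    rw [e1]
    show p * (x * (b * g.1) * x⁻¹) = x * (b * g.1) * x⁻¹ * p
    calc p * (x * (b * g.1) * x⁻¹) = x * (x⁻¹ * p * x * (b * g.1)) * x⁻¹ := by group
      _ = x * (b * g.1 * (x⁻¹ * p * x)) * x⁻¹ := by rw [hp]
      _ = _ := by group
  have c2 := c1 _ h1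
  have c3 := c1 _ h2
  have er : r = (a * q)⁻¹ * (a * q') := by rw [hr]; group
  have c4 : Commute r (b * (x⁻¹ * g.1 * x⁻¹)) := by
    rw [er]
    exact c2.inv_left.mul_left c3
  have crb : Commute r b := hrX.2
  have c5 : Commute r (x⁻¹ * g.1 * x⁻¹) := by
    have e1 : x⁻¹ * g.1 * x⁻¹ = b⁻¹ * (b * (x⁻¹ * g.1 * x⁻¹)) := by group
    rw [e1]
    exact crb.inv_right.mul_right c4
  -- apply `c`: `r⁻¹` commutes with `x g x`
  have hc : x * c = c * x⁻¹ := h.rot.mul_b hx.1 hx.2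
  have hc' : x⁻¹ * c = c * x := by
    calc x⁻¹ * c = x⁻¹ * (c * x⁻¹) * x := by group
      _ = x⁻¹ * (x * c) * x := by rw [hc]
      _ = c * x := by group
  have rc : r * c = c * r⁻¹ := h.rot.rot.mul_a hrX.1 hrX.2
  have c6 : Commute r (x * g.1 * x) := by
    have e1 : x * g.1 * x = c⁻¹ * (x⁻¹ * g.1 * x⁻¹) * c := by
      calc x * g.1 * x = c⁻¹ * (c * x) * g.1 * x := by group
        _ = c⁻¹ * (x⁻¹ * c) * g.1 * x := by rw [hc']
        _ = c⁻¹ * x⁻¹ * (c * g.1) * x := by group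
        _ = c⁻¹ * x⁻¹ * g.1 * (c * x) := by rw [← gc]; group
        _ = c⁻¹ * x⁻¹ * g.1 * (x⁻¹ * c) := by rw [hc']
        _ = _ := by group
    have e2 : r⁻¹ = c⁻¹ * r * c := by
      calc r⁻¹ = c⁻¹ * (c * r⁻¹) := by group
        _ = c⁻¹ * (r * c) := by rw [rc]
        _ = _ := by group
    have c7 : Commute r⁻¹ (x * g.1 * x) := by
      rw [e1, e2]
      show c⁻¹ * r * c * (c⁻¹ * (x⁻¹ * g.1 * x⁻¹) * c) = c⁻¹ * (x⁻¹ * g.1 * x⁻¹) * c * (c⁻¹ * r * c)
      calc c⁻¹ * r * c * (c⁻¹ * (x⁻¹ * g.1 * x⁻¹) * c)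
          = c⁻¹ * (r * (x⁻¹ * g.1 * x⁻¹)) * c := by group
        _ = c⁻¹ * ((x⁻¹ * g.1 * x⁻¹) * r) * c := by rw [c5.eq]
        _ = _ := by group
    have := c7.inv_left
    rwa [inv_inv] at this
  -- `x g² x⁻¹`, `x g x⁻¹`
  have c8 : Commute r (x * (g.1 * g.1) * x⁻¹) := by
    have e1 : x * (g.1 * g.1) * x⁻¹ = (x * g.1 * x) * (x⁻¹ * g.1 * x⁻¹) := by group
    rw [e1]
    exact c6.mul_right c5
  obtain ⟨n, hn⟩ := h.odd g.1 gK
  have c9 : Commute r (x * g.1 * x⁻¹) := by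
    have e1 : x * g.1 * x⁻¹ = (x * (g.1 * g.1) * x⁻¹) ^ (n + 1) := by
      rw [conj_pow, ← pow_two, ← pow_mul, show 2 * (n + 1) = (2 * n + 1) + 1 by ring, pow_succ,
        hn, one_mul]
    rw [e1]
    exact c8.pow_right _
  -- `x g x² g⁻¹ x⁻¹`
  have c10 : Commute r ((x * g.1) * (x * x) * (x * g.1)⁻¹) := by
    have e1 : (x * g.1) * (x * x) * (x * g.1)⁻¹ = (x * g.1 * x) * (x * g.1 * x⁻¹)⁻¹ := by group
    rw [e1]
    exact c6.mul_right c9.inv_right
  obtain ⟨m, hm⟩ := h.odd x hx.1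
  have c11 : Commute r ((x * g.1) * x * (x * g.1)⁻¹) := by
    have e1 : (x * g.1) * x * (x * g.1)⁻¹ = ((x * g.1) * (x * x) * (x * g.1)⁻¹) ^ (m + 1) := by
      rw [conj_pow, ← pow_two, ← pow_mul, show 2 * (m + 1) = (2 * m + 1) + 1 by ring, pow_succ,
        hm, one_mul]
    rw [e1]
    exact c10.pow_right _
  -- `s := x⁻¹ r x` commutes with `g`
  have c12 : Commute (x⁻¹ * r * x) g.1 := by
    show x⁻¹ * r * x * g.1 = g.1 * (x⁻¹ * r * x)
    calc x⁻¹ * r * x * g.1 = x⁻¹ * (r * (x * g.1 * x⁻¹)) * x := by group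
      _ = x⁻¹ * ((x * g.1 * x⁻¹) * r) * x := by rw [c9.eq]
      _ = _ := by group
  have c13 : Commute (x⁻¹ * r * x) x := by
    have e1 : g.1⁻¹ * (x⁻¹ * r * x) * g.1 = x⁻¹ * r * x := by
      calc g.1⁻¹ * (x⁻¹ * r * x) * g.1 = g.1⁻¹ * ((x⁻¹ * r * x) * g.1) := by group
        _ = g.1⁻¹ * (g.1 * (x⁻¹ * r * x)) := by rw [c12.eq]
        _ = _ := by group
    show x⁻¹ * r * x * x = x * (x⁻¹ * r * x)
    rw [← e1]
    calc g.1⁻¹ * (x⁻¹ * r * x) * g.1 * x
        = (x * g.1)⁻¹ * (r * ((x * g.1) * x * (x * g.1)⁻¹)) * (x * g.1) := by group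
      _ = (x * g.1)⁻¹ * (((x * g.1) * x * (x * g.1)⁻¹) * r) * (x * g.1) := by rw [c11.eq]
      _ = _ := by group
  have e1 : x⁻¹ * r * x * x = x * (x⁻¹ * r * x) := c13.eq
  calc x * r = x * x * (x⁻¹ * r * x) * x⁻¹ := by group
    _ = x * (x * (x⁻¹ * r * x)) * x⁻¹ := by group
    _ = x * (x⁻¹ * r * x * x) * x⁻¹ := by rw [e1]
    _ = r * x := by group

end Pool.Agent.FourGp.H71
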