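import Pool.Agent.Lib.MP_fb3619_al.H71.Hu

/-!
# MP_fb3619_al, THEOREM H, LEMMA V and the dichotomy
-/

set_option autoImplicit false

universe u

namespace Pool.Agent.FourGp.FF.Hz

open Pool.Agent.FourGp.H47 (Odd' inv_of_sq conj_inv_pow mul_inv_self odd_conj comm_of_inv
  mul_inv_self' comm_pow comm_inv conj_comm comm_conj)
open Pool.Agent.FourGp.H99 (LF)
open Pool.Agent.FourGp.FF.Abo
open Pool.Agent.FourGp.FF.Pq (TA mem_TA thc)
open Pool.Agent.FourGp.FF.Bs (MinC Min0 HerS CkS CmsS)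
open Pool.Agent.FourGp.FF.Fi (cjg mem_cjg Tm AT Fam)
open Pool.Agent.FourGp.FF.Fp

variable {G : Type u} [Group G] {K : Subgroup G} {a b c : G}

/-- `b w` commutes with `a k`, where `w` is the `C_K(c)`-part of `k`, `k` inverted by `a`. -/
theorem lv0 (h : Fr K a b c) {k w w0 : G} (hwK : w ∈ K) (h0K : w0 ∈ K)
    (hw : w * c = c * w) (h0 : c * w0 * c = w0⁻¹) (hka : a * k * a = k⁻¹) (e : k = w * w0) :
    Mi K c b w ∧ Commute (b * w) (a * k) := by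
  have hwa : a * w * a = w⁻¹ := comp_inv h.rot.rot h.aa h.cac hka h0K e hw h0
  have hM : Mi K c b w := (mi_c h.rot.rot).1 ⟨mem_Cz.2 ⟨hwK, hw⟩, hwa⟩
  have hwb : b * w * b = w⁻¹ := hM.2
  have hyy : (b * w) * (b * w) = 1 := by
    calc (b * w) * (b * w) = (b * w * b) * w := by group
      _ = 1 := by rw [hwb]; group
  have hzz : (c * w0) * (c * w0) = 1 := by
    calc (c * w0) * (c * w0) = (c * w0 * c) * w0 := by group
      _ = 1 := by rw [h0]; group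
  have hxx : (a * k) * (a * k) = 1 := by
    calc (a * k) * (a * k) = (a * k * a) * k := by group
      _ = 1 := by rw [hka]; group
  have hx : a * k = (b * w) * (c * w0) := by
    calc a * k = (b * c) * (w * w0) := by rw [h.bc, e]
      _ = b * (c * w) * w0 := by group
      _ = b * (w * c) * w0 := by rw [hw]
      _ = _ := by group
  refine ⟨hM, ?_⟩
  have e1 : (b * w) * (a * k) = c * w0 := by
    rw [hx]
    calc b * w * (b * w * (c * w0)) = (b * w) * (b * w) * (c * w0) := by group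
      _ = c * w0 := by rw [hyy, one_mul]
  have e2 : (a * k) * (b * w) = c * w0 := by
    have h1 : (a * k) * (b * w) * (c * w0) = 1 := by
      rw [mul_assoc, ← hx, hxx]
    calc (a * k) * (b * w) = (a * k) * (b * w) * ((c * w0) * (c * w0)) := by rw [hzz, mul_one]
      _ = ((a * k) * (b * w) * (c * w0)) * (c * w0) := by group
      _ = c * w0 := by rw [h1, one_mul]
  exact e1.trans e2.symm

/-- LEMMA V, two elements. -/
theorem lv1 (h : Fr K a b c) {s m m' w w0 w0' : G} (hs : Mi K a b s) (hm : Mi K b a m)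
    (hm' : Mi K b a m') (hd : Mi K b a (m⁻¹ * m')) (hwK : w ∈ K) (h0K : w0 ∈ K) (h0K' : w0' ∈ K)
    (hw : w * c = c * w) (h0 : c * w0 * c = w0⁻¹) (h0' : c * w0' * c = w0'⁻¹)
    (e : s⁻¹ * m * s = w * w0) (e' : s⁻¹ * m' * s = w * w0') :
    (m⁻¹ * m') * s = s * (m⁻¹ * m') := by
  have hsa := (mem_Cz.1 hs.1).2
  have hsK := (mem_Cz.1 hs.1).1
  have hsc : c * s * c = s⁻¹ := ((mi_c h).1 hs).2
  have hdc : c * (m⁻¹ * m') * c = (m⁻¹ * m')⁻¹ := ((mi_c h.swap).1 hd).2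
  have hdb := (mem_Cz.1 hd.1).2
  have hka : a * (s⁻¹ * m * s) * a = (s⁻¹ * m * s)⁻¹ := by
    rw [cj_conj h.aa hsa, hm.2]; group
  have hka' : a * (s⁻¹ * m' * s) * a = (s⁻¹ * m' * s)⁻¹ := by
    rw [cj_conj h.aa hsa, hm'.2]; group
  obtain ⟨hM, c1⟩ := lv0 h hwK h0K hw h0 hka e
  obtain ⟨-, c2⟩ := lv0 h hwK h0K' hw h0' hka' e'
  generalize hdd : m⁻¹ * m' = d at hdc hdb ⊢
  have e1 : s⁻¹ * d * s = (a * (s⁻¹ * m * s)) * (a * (s⁻¹ * m' * s)) := by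
    calc s⁻¹ * d * s = (s⁻¹ * m * s)⁻¹ * (s⁻¹ * m' * s) := by rw [← hdd]; group
      _ = (a * (s⁻¹ * m * s) * a) * (s⁻¹ * m' * s) := by rw [hka]
      _ = _ := by group
  have c3 : Commute (b * w) (s⁻¹ * d * s) := by
    rw [e1]; exact c1.mul_right c2
  -- `d` commutes with `s (b w) s⁻¹`
  have c4 : Commute (s * (b * w) * s⁻¹) d := by
    have h1 : (b * w) * (s⁻¹ * d * s) = (s⁻¹ * d * s) * (b * w) := c3
    show s * (b * w) * s⁻¹ * d = d * (s * (b * w) * s⁻¹)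
    calc s * (b * w) * s⁻¹ * d = s * ((b * w) * (s⁻¹ * d * s)) * s⁻¹ := by group
      _ = s * ((s⁻¹ * d * s) * (b * w)) * s⁻¹ := by rw [h1]
      _ = _ := by group
  have cdb : Commute b d := (show Commute d b from hdb).symm
  have hsb : s * b = b * s⁻¹ := by
    calc s * b = (b * b) * s * b := by rw [h.bb, one_mul]
      _ = b * (b * s * b) := by group
      _ = b * s⁻¹ := by rw [hs.2]
  have c5 : Commute (s⁻¹ * w * s⁻¹) d := by
    have h1 : s⁻¹ * w * s⁻¹ = b * (s * (b * w) * s⁻¹) := by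
      calc s⁻¹ * w * s⁻¹ = (b * b) * s⁻¹ * w * s⁻¹ := by rw [h.bb, one_mul]
        _ = b * (b * s⁻¹) * w * s⁻¹ := by group
        _ = b * (s * b) * w * s⁻¹ := by rw [hsb]
        _ = _ := by group
    rw [h1]
    exact cdb.mul_left c4
  -- apply `c`
  have c6 : Commute (s * w * s) d := by
    have h1 : c * (s⁻¹ * w * s⁻¹) * c = s * w * s := by
      rw [cj_mul h.cc, cj_mul h.cc, cj_inv h.cc, hsc, inv_inv, cj_fix h.cc hw]
    have h2 : c * ((s⁻¹ * w * s⁻¹) * d) * c = c * (d * (s⁻¹ * w * s⁻¹)) * c := by rw [c5.eq]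
    rw [cj_mul h.cc (x := s⁻¹ * w * s⁻¹) (y := d), cj_mul h.cc (x := d) (y := s⁻¹ * w * s⁻¹),
      h1, hdc] at h2
    have h3 : Commute (s * w * s) d⁻¹ := h2
    have h4 := h3.inv_right
    rwa [inv_inv] at h4
  have c7 : Commute ((s * w * s⁻¹) * (s * w * s⁻¹)) d := by
    have h1 : (s * w * s⁻¹) * (s * w * s⁻¹) = (s * w * s) * (s⁻¹ * w * s⁻¹) := by group
    rw [h1]
    exact c6.mul_left c5
  have hA3 : s * w * s⁻¹ ∈ K := K.mul_mem (K.mul_mem hsK hwK) (K.inv_mem hsK)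
  have c8 : Commute d (s * w * s⁻¹) := hdf_comm (h.odd _ hA3) c7.symm
  have c9 : Commute d (s * s) := by
    have h1 : s * s = (s * w * s⁻¹)⁻¹ * (s * w * s) := by group
    rw [h1]
    exact c8.inv_right.mul_right c6.symm
  exact hdf_comm (h.odd _ hsK) c9

/-- LEMMA V: if the `C_K(c)`-parts of the elements `s⁻¹ m s`, `m ∈ M`, lie in a finite set then
`C_M(s)` has finite index in `M`. -/
theorem lv (h : Fr K a b c) {s : G} (hs : Mi K a b s) {M : Subgroup G} (hM : ∀ m ∈ M, Mi K b a m)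
    {V : Set G} (hV : V.Finite) (hMV : ∀ m ∈ M, ∃ w ∈ V, ∃ w0, w ∈ K ∧ w0 ∈ K ∧
      w * c = c * w ∧ c * w0 * c = w0⁻¹ ∧ s⁻¹ * m * s = w * w0) : fi M s := by
  classical
  have h1 : ∀ m : M, ∃ w ∈ V, ∃ w0, w ∈ K ∧ w0 ∈ K ∧
      w * c = c * w ∧ c * w0 * c = w0⁻¹ ∧ s⁻¹ * (m : G)⁻¹ * s = w * w0 :=
    fun m => hMV _ (M.inv_mem m.2)
  choose φ hφ w0 h2 using h1
  obtain ⟨S, hS, -, hS2⟩ := Fct.vals (P := (Set.univ : Set M)) (φ := φ)
    (hV.subset (by rintro _ ⟨m, -, rfl⟩; exact hφ m))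
  refine Fct.idx (R := Subtype.val '' S) (hS.image _) ?_
  intro g hg
  obtain ⟨r, hr, e⟩ := hS2 ⟨g, hg⟩ trivial
  refine ⟨r, ⟨r, hr, rfl⟩, g * (r : G)⁻¹, ?_, by group⟩
  obtain ⟨p1, p2, p3, p4, p5⟩ := h2 r
  obtain ⟨q1, q2, q3, q4, q5⟩ := h2 ⟨g, hg⟩
  rw [← e] at q5
  have h3 := lv1 h hs (hM _ (M.inv_mem hg)) (hM _ (M.inv_mem r.2))
    (by rw [inv_inv]; exact hM _ (M.mul_mem hg (M.inv_mem r.2))) p1 q2 p2 p3 q4 p4 q5 p5
  rw [inv_inv] at h3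
  exact Subgroup.mem_centralizer_singleton_iff.2 h3

/-- The dichotomy: `L` invariant, of finite index in `C_K(b)`; if `L ∩ C_K(c)` is finite then
`L ∩ C_K(a)` is finite. -/
theorem dic (h : Fr K a b c) (hF : (Fx K a b : Set G).Finite)
    (hb : (TA K b a).relIndex (Cz K b) ≠ 0) (u2 : {x | x ∈ Cz K a ∧ fi (Cz K b) x}.Finite)
    {L : Subgroup G} (hLK : L ≤ K) (hLV : VInv a b L) (hLb : L.relIndex (Cz K b) ≠ 0)
    (hLc : {x | x ∈ L ∧ x ∈ Cz K c}.Finite) : {x | x ∈ L ∧ x ∈ Cz K a}.Finite := by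
  have hLc' : ∀ u ∈ L, c * u * c ∈ L := Fi.inv_third h hLV
  -- the inverted part
  have h1 : {s | s ∈ L ∧ Mi K a b s}.Finite := by
    refine u2.subset ?_
    rintro s ⟨hsL, hs⟩
    refine ⟨hs.1, ?_⟩
    have h2 : fi (TA K b a ⊓ L) s := by
      refine lv h hs (fun m hm => ta_mi h.swap hm.1) hLc ?_
      intro m hm
      obtain ⟨w, w0, hw, hw0, e, hwc, h0⟩ := h.dec (X := L) hLK h.cc hLc'
        (L.mul_mem (L.mul_mem (L.inv_mem hsL) hm.2) hsL)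
      exact ⟨w, ⟨hw, mem_Cz.2 ⟨hLK hw, hwc⟩⟩, w0, hLK hw, hLK hw0, hwc, h0, e⟩
    have h3 : (TA K b a ⊓ L).relIndex (Cz K b) ≠ 0 := inf_ind hb hLb
    refine Subgroup.relIndex_ne_zero_trans (K := TA K b a ⊓ L) h2 h3
  refine (hF.image2 (fun w s => w * s) h1).subset ?_
  rintro x ⟨hxL, hxa⟩
  obtain ⟨w, s, hw, hs, e, hwb, hsb⟩ := h.dec (X := L ⊓ Cz K a) (inf_le_left.trans hLK) h.bb
    (fun u hu => ⟨hLV.2 u hu.1, h.cz_inv h.bb h.cab.symm hu.2⟩) (show x ∈ L ⊓ Cz K a from ⟨hxL, hxa⟩)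
  exact ⟨w, mem_Fx.2 ⟨(mem_Cz.1 hw.2).1, (mem_Cz.1 hw.2).2, hwb⟩, s, ⟨hs.1, hs.2, hsb⟩, e.symm⟩

end Pool.Agent.FourGp.FF.Hz
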