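import Pool.Agent.Lib.MP_fb3619_al.H71.Hu
import Pool.Agent.Lib.MP_fb3619_al.FP.Y2
import Pool.Agent.Lib.MP_fb3619_al.WT.Iface

/-!
# MP_fb3619_al, THEOREM H, (Y): the consumer of LEMMA Y
-/

set_option autoImplicit false

universe u

namespace Pool.Agent.FourGp.FF.Hz

open Pool.Agent.FourGp.H47 (Odd' inv_of_sq conj_inv_pow mul_inv_self odd_conj comm_of_inv
  mul_inv_self' comm_pow comm_inv conj_comm comm_conj)
open Pool.Agent.FourGp.H99 (LF)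
open Pool.Agent.FourGp.FF.Abo
open Pool.Agent.FourGp.FF.Pq (TA mem_TA thc)
open Pool.Agent.FourGp.FF.Bs (MinC Min0 HerS CkS CmsS)
open Pool.Agent.FourGp.FF.Fi (cjg mem_cjg Tm AT Fam)
open Pool.Agent.FourGp.FF.Fp
open Pool.Agent.FourGp.FF.Wt (Pv)

variable {G : Type u} [Group G] {K : Subgroup G} {a b c : G}

/-- A group with a finite subgroup of finite index is finite. -/
theorem fin_rel {A D : Subgroup G} (h : A.relIndex D ≠ 0) (hf : {x | x ∈ A ∧ x ∈ D}.Finite) :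
    (D : Set G).Finite := by
  have h1 : (A ⊓ D).relIndex D ≠ 0 := by rwa [Subgroup.inf_relIndex_right]
  obtain ⟨R, hR, hR1⟩ := Fct.reps h1
  refine (hf.image2 (fun n r => n * r) hR).subset ?_
  intro g hg
  obtain ⟨r, hr, n, hn, e⟩ := hR1 g hg
  exact ⟨n, ⟨hn.1, hn.2⟩, r, hr, e.symm⟩

/-- The consumer form of LEMMA Y. -/
theorem rl (hY : YlS.{u}) (hFl : FlatS.{u}) (m : MinC K a b c)
    (hb : (TA K b a).relIndex (Cz K b) ≠ 0) (hc : (TA K c a).relIndex (Cz K c) ≠ 0)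
    {Z : Subgroup G} (hZ : ∀ z ∈ Z, Pv K a b z)
    (hQ : {x | x ∈ Cz K c ∧ ∀ z ∈ Z, x * z = z * x}.Finite)
    {L : Subgroup G} (hLK : L ≤ K) (hLV : VInv a b L) (hLL : LF L)
    (hLZ : ∀ z ∈ Z, ∀ g ∈ L, z⁻¹ * g * z ∈ L) (hLb : L.relIndex (Cz K b) ≠ 0) :
    {x | x ∈ L ∧ x ∈ Cz K c}.Finite := by
  have h := m.fr
  have hF := m.fin
  have u1 : {x | x ∈ Cz K c ∧ fi (Cz K b) x}.Finite :=
    hu1 h.rot (by rw [h.fx_rot]; exact hF) (m.nolf.rot h) (by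
      rw [← ta_swap h.rot.rot]; exact hc)
  have u2 := hu2 m u1
  set W : Subgroup G := (TA K b a ⊓ L) ⊔ (TA K c a ⊓ L) with hW
  have hWL : W ≤ L := sup_le inf_le_right inf_le_right
  have hWK : W ≤ K := hWL.trans hLK
  have hWV : VInv a b W :=
    sup_inv h (Yt.inf_vinv (Yt.tb_inv h) hLV) (Yt.inf_vinv (Yt.tc_inv h) hLV)
  have hWLF : LF W := LF_mono hWL hLL
  -- conjugation
  have hpar : ∀ f ∈ Fx K a b, (∀ g ∈ L, f⁻¹ * g * f ∈ L) →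
      (∀ s ∈ TA K b a ⊓ L, f⁻¹ * s * f ∈ TA K b a ⊓ L) ∧
      ∀ s ∈ TA K c a ⊓ L, f⁻¹ * s * f ∈ TA K c a ⊓ L := by
    intro f hf hfL
    have hfb : f ∈ Fx K b a := by rw [Fr.fx_swap]; exact hf
    have hfc : f ∈ Fx K c a := by rw [fx_ca h]; exact hf
    exact ⟨fun s hs => ⟨ta_fx h.swap hfb hs.1, hfL s hs.2⟩,
      fun s hs => ⟨ta_fx h.rot.rot hfc hs.1, hfL s hs.2⟩⟩
  -- no fixed points
  have hWF : ∀ f ∈ W, f ∈ Fx K a b → f = 1 := by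
    intro f hf hfF
    refine hFl G K a b c h hF ⊥ (TA K b a ⊓ L) (TA K c a ⊓ L) bot_le inf_le_left
      inf_le_left (by rw [bot_sup_eq]; exact hWLF) ?_ f (by rw [bot_sup_eq]; exact hf) hfF
    intro g hg hgF
    rw [bot_sup_eq] at hg
    have hgL : g ∈ L := hWL hg
    obtain ⟨p1, p2⟩ := hpar g hgF fun x hx => L.mul_mem (L.mul_mem (L.inv_mem hgL) hx) hgL
    refine ⟨?_, p1, p2⟩
    intro s hs
    rw [Subgroup.mem_bot] at hs ⊢
    rw [hs]; group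
  -- the finite sets
  have hWb : W.relIndex (Cz K b) ≠ 0 := ind_mono (inf_ind hb hLb) le_sup_left
  have f1 : {x | x ∈ W ∧ x ∈ Cz K c ∧ fi (W ⊓ Cz K b) x}.Finite :=
    u1.subset fun x hx => ⟨hx.2.1, fi_up hWb hx.2.2⟩
  have f2 : {x | x ∈ W ∧ x ∈ Cz K a ∧ fi (W ⊓ Cz K b) x}.Finite :=
    u2.subset fun x hx => ⟨hx.2.1, fi_up hWb hx.2.2⟩
  -- `W ∩ C(a)` is inverted by `b`
  have hWa : ∀ x ∈ W ⊓ Cz K a, Mi K a b x := by
    intro x hx
    have hinv : ∀ u ∈ W ⊓ Cz K a, b * u * b ∈ W ⊓ Cz K a := fun u hu =>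
      ⟨hWV.2 u hu.1, h.cz_inv h.bb h.cab.symm hu.2⟩
    obtain ⟨w, s, hw, hs, e, hwb, hsb⟩ := h.dec (X := W ⊓ Cz K a) (inf_le_left.trans hWK) h.bb
      hinv hx
    have h1 : w = 1 := hWF w hw.1 (mem_Fx.2 ⟨(mem_Cz.1 hw.2).1, (mem_Cz.1 hw.2).2, hwb⟩)
    rw [h1, one_mul] at e
    rw [e]
    exact ⟨hs.2, hsb⟩
  have key : ∀ z ∈ Z, fi (W ⊓ Cz K c) z := by
    intro z hz
    obtain ⟨hzF, hzP⟩ := hZ z hz
    obtain ⟨p1, p2⟩ := hpar z hzF (hLZ z hz)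
    refine (hY G K b c a h.rot W hWK (hWV.rot h) hWLF (fun f hf hfF => hWF f hf (by
      rw [← h.fx_rot]; exact hfF)) f1 f2 z (by rw [h.fx_rot]; exact hzF)
      (sup_conj p1 p2) ?_).1
    have : W ⊓ Cz K a ≤ Subgroup.centralizer {z} := by
      intro x hx
      exact Subgroup.mem_centralizer_singleton_iff.2 (hzP x (hWa x hx)).symm
    show (Subgroup.centralizer {z}).relIndex (W ⊓ Cz K a) ≠ 0
    rw [Subgroup.relIndex_eq_one.2 this]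
    exact one_ne_zero
  have hZf : (Z : Set G).Finite := hF.subset fun z hz => (hZ z hz).1
  have h1 : (Subgroup.centralizer (Z : Set G)).relIndex (W ⊓ Cz K c) ≠ 0 :=
    Fct.cent_ne hZf key
  have h2 : ((W ⊓ Cz K c : Subgroup G) : Set G).Finite := by
    refine fin_rel h1 (hQ.subset ?_)
    rintro x ⟨hx1, hx2⟩
    exact ⟨hx2.2, fun z hz => (Subgroup.mem_centralizer_iff.1 hx1 z hz).symm⟩
  have h3 : ((L ⊓ Cz K c : Subgroup G) : Set G).Finite := by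
    refine fin_rel (A := TA K c a) ?_ ?_
    · intro h0
      exact hc (Subgroup.relIndex_eq_zero_of_le_right inf_le_right h0)
    · refine h2.subset ?_
      rintro x ⟨hx1, hx2⟩
      exact ⟨(le_sup_right : TA K c a ⊓ L ≤ W) ⟨hx1, hx2.1⟩, hx2.2⟩
  exact h3.subset fun x hx => ⟨hx.1, hx.2⟩

end Pool.Agent.FourGp.FF.Hz
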