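import Pool.Agent.Lib.MP_fb3619_al.FP.Hdf
import Pool.Agent.Lib.MP_fb3619_al.FP.Base
import Pool.Agent.Lib.MP_fb3619_al.BS.Gen
import Pool.Agent.Lib.MP_fb3619_al.BS.Cms
import Pool.Agent.Lib.MP_fb3619_al.FF.Cnt

/-!
# MP_fb3619_al, THEOREM H, LEMMA U: if the type `c` is tame then `HD(C_K(b))` meets `C_K(a)` and
`C_K(c)` in finite sets, is locally finite and commensurable with `HD(C_K(b)) ∩ C_K(b)`.
-/

set_option autoImplicit false

universe u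

namespace Pool.Agent.FourGp.FF.Hz


open Pool.Agent.FourGp.H47 (Odd' inv_of_sq conj_inv_pow mul_inv_self odd_conj comm_of_inv
  mul_inv_self' comm_pow comm_inv conj_comm comm_conj)
open Pool.Agent.FourGp.H99 (LF)
open Pool.Agent.FourGp.FF.Abo
open Pool.Agent.FourGp.FF.Pq (TA mem_TA thc)
open Pool.Agent.FourGp.FF.Bs (MinC Min0 HerS CkS CmsS)
open Pool.Agent.FourGp.FF.Fi (cjg mem_cjg Tm AT Fam)
open Pool.Agent.FourGp.FF.Fp

variable {G : Type u} [Group G] {K : Subgroup G} {a b c : G}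

/-- `C_K(b) ∩ HD_a` is finite if the type `b` is tame. -/
theorem hu1 (h : Fr K a b c) (hF : (Fx K a b : Set G).Finite) (hN : NoLf K a b)
    (hT : (TA K b a).relIndex (Cz K b) ≠ 0) : {x | x ∈ Cz K b ∧ fi (Cz K a) x}.Finite := by
  have hF' : (Fx K b c : Set G).Finite := by
    rw [h.fx_rot]
    exact hF
  have key : ∀ t ∈ TA K b a, fi (Cz K a) t → t = 1 := fun t ht hfi =>
    thc G K b c a h.rot hF' (hN.rot h) t (hdf_ta h ht) hfi
  obtain ⟨R, hRf, hR⟩ := cover_of_relIndex hT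
  have hR' : ∀ x : {x | x ∈ Cz K b ∧ fi (Cz K a) x}, ∃ r : R, x.1 * (r : G)⁻¹ ∈ TA K b a := by
    rintro ⟨x, hx, -⟩
    obtain ⟨r, hr, h1⟩ := hR x hx
    exact ⟨⟨r, hr⟩, h1⟩
  choose f hf using hR'
  have hinj : Function.Injective f := by
    rintro ⟨x, hx, hx'⟩ ⟨y, hy, hy'⟩ e
    have h1 := hf ⟨x, hx, hx'⟩
    have h2 := hf ⟨y, hy, hy'⟩
    rw [← e] at h2
    have h3 := (TA K b a).mul_mem h1 ((TA K b a).inv_mem h2)
    have e2 : x * ((f ⟨x, hx, hx'⟩ : R) : G)⁻¹ * (y * ((f ⟨x, hx, hx'⟩ : R) : G)⁻¹)⁻¹ =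
        x * y⁻¹ := by group
    rw [e2] at h3
    have h4 : fi (Cz K a) (x * y⁻¹) :=
      (HD (Cz K a)).mul_mem (mem_HD.2 hx') ((HD (Cz K a)).inv_mem (mem_HD.2 hy'))
    have h5 := key _ h3 h4
    exact Subtype.ext (mul_inv_eq_one.1 h5)
  have : Finite {x | x ∈ Cz K b ∧ fi (Cz K a) x} := Finite.of_injective f hinj
  exact Set.toFinite _

/-- The subgroup `K ∩ HD_b`. -/
def Zh (K : Subgroup G) (b : G) : Subgroup G := K ⊓ HD (Cz K b)

theorem mem_Zh {x : G} : x ∈ Zh K b ↔ x ∈ K ∧ fi (Cz K b) x := by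
  unfold Zh
  rw [Subgroup.mem_inf, mem_HD]

theorem Zh_leK : Zh K b ≤ K := fun _ hx => (mem_Zh.1 hx).1

theorem Zh_inv (h : Fr K a b c) : VInv a b (Zh K b) := by
  refine ⟨fun u hu => ?_, fun u hu => ?_⟩
  · obtain ⟨h1, h2⟩ := mem_Zh.1 hu
    exact mem_Zh.2 ⟨h.cjmem h.aa h1, fi_inv h.aa (fun d hd => h.cz_inv h.aa h.cab hd) h2⟩
  · obtain ⟨h1, h2⟩ := mem_Zh.1 hu
    exact mem_Zh.2 ⟨h.cjmem h.bb h1, fi_inv h.bb (fun d hd => h.cz_inv h.bb rfl hd) h2⟩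

/-- The inverted part of `C_K(b)` lies in `HD_b`. -/
theorem mi_Zh (m : MinC K a b c) {u : G} (hu : Mi K b a u) : u ∈ Zh K b := by
  have hF : (Fx K b a : Set G).Finite := by rw [Fr.fx_swap]; exact m.fin
  exact mem_Zh.2 ⟨(mem_Cz.1 hu.1).1, mi_fi' m.fr.swap hF hu⟩

theorem Zh_c (_m : MinC K a b c) (u1 : {x | x ∈ Cz K c ∧ fi (Cz K b) x}.Finite) :
    {w | w ∈ Zh K b ∧ w * c = c * w}.Finite :=
  u1.subset fun _w hw => ⟨mem_Cz.2 ⟨(mem_Zh.1 hw.1).1, hw.2⟩, (mem_Zh.1 hw.1).2⟩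

/-- LEMMA U, the finite intersection with `C_K(a)`. -/
theorem hu2 (m : MinC K a b c) (u1 : {x | x ∈ Cz K c ∧ fi (Cz K b) x}.Finite) :
    {x | x ∈ Cz K a ∧ fi (Cz K b) x}.Finite := by
  have h := m.fr
  by_contra hinf
  set U : Subgroup G := Cz K a ⊓ Zh K b with hU
  have hUset : (U : Set G) = {x | x ∈ Cz K a ∧ fi (Cz K b) x} := by
    ext x
    rw [hU]
    constructor
    · rintro ⟨h1, h2⟩
      exact ⟨h1, (mem_Zh.1 h2).2⟩
    · rintro ⟨h1, h2⟩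
      exact ⟨h1, mem_Zh.2 ⟨(mem_Cz.1 h1).1, h2⟩⟩
  have hUinf : Infinite U := by
    rw [← hUset] at hinf
    exact Set.infinite_coe_iff.2 hinf
  have hUK : U ≤ K := inf_le_left.trans cz_le
  obtain ⟨s1, -, -⟩ := shu G K a b c h (Zh K b) c Zh_leK h.cc (Fi.inv_third h (Zh_inv h))
    (Zh_c m u1)
  have hb : ∀ u, Mi K b a u → fi U u := by
    intro u hu
    have h1 : c * u * c = u⁻¹ := ((mi_c h.swap).1 hu).2
    exact Fct.fi_mono (s1 u (mi_Zh m hu) h1) inf_le_right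
  have ha : ∀ u, Mi K a b u → fi U u := fun u hu =>
    Fct.fi_mono (mi_fi' h m.fin hu) inf_le_left
  have hL : K ⊓ HD U = K := (Bs.gen G K a b c m).1 (K ⊓ HD U) inf_le_left
    (fun u hu => ⟨(mem_Cz.1 hu.1).1, mem_HD.2 (ha u hu)⟩)
    (fun u hu => ⟨(mem_Cz.1 hu.1).1, mem_HD.2 (hb u hu)⟩)
  have hK : ∀ k ∈ K, fi U k := by
    intro k hk
    rw [← hL] at hk
    exact mem_HD.1 hk.2
  have hUV : VInv a b U := by
    have h1 : VInv a b (Cz K a) :=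
      ⟨fun u hu => h.cz_inv h.aa rfl hu, fun u hu => h.cz_inv h.bb h.cab.symm hu⟩
    exact ⟨fun u hu => ⟨h1.1 u hu.1, (Zh_inv h).1 u hu.2⟩,
      fun u hu => ⟨h1.2 u hu.1, (Zh_inv h).2 u hu.2⟩⟩
  have h1 : ∀ x ∈ K, x = 1 := by
    intro x hx
    refine Bs.cms G K a b c m U hUK hUV hUinf ?_ x hx (hK x hx)
    intro k hk
    refine Fct.rel_le (hK k hk) ?_
    intro g hg hgc
    rw [Subgroup.mem_centralizer_singleton_iff] at hgc
    rw [mem_cjg]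
    have e : k⁻¹ * g * k = g := by
      rw [mul_assoc, hgc]; group
    rw [e]
    exact hg
  have : Subsingleton U := ⟨fun x y => Subtype.ext ((h1 x (hUK x.2)).trans (h1 y (hUK y.2)).symm)⟩
  exact not_finite U

/-- `K ∩ HD_b` is locally finite. -/
theorem Zh_lf (m : MinC K a b c) (u1 : {x | x ∈ Cz K c ∧ fi (Cz K b) x}.Finite) :
    LF (Zh K b) :=
  (shu G K a b c m.fr (Zh K b) c Zh_leK m.fr.cc (Fi.inv_third m.fr (Zh_inv m.fr))
    (Zh_c m u1)).2.2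

/-- `C_K(b)` meets `K ∩ HD_b` in a subgroup of finite index. -/
theorem Zh_ind (m : MinC K a b c) (u1 : {x | x ∈ Cz K c ∧ fi (Cz K b) x}.Finite) :
    (Cz K b).relIndex (Zh K b) ≠ 0 := by
  have h := m.fr
  have u2 := hu2 m u1
  have hV : VInv a b (Cz K b ⊓ Zh K b) := by
    have h1 : VInv a b (Cz K b) :=
      ⟨fun u hu => h.cz_inv h.aa h.cab hu, fun u hu => h.cz_inv h.bb rfl hu⟩
    exact ⟨fun u hu => ⟨h1.1 u hu.1, (Zh_inv h).1 u hu.2⟩,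
      fun u hu => ⟨h1.2 u hu.1, (Zh_inv h).2 u hu.2⟩⟩
  have hfin : ∀ v, {x | x ∈ Cz K v ∧ fi (Cz K b) x}.Finite →
      (Cz K b ⊓ Zh K b).relIndex (Zh K b ⊓ Subgroup.centralizer {v}) ≠ 0 := by
    intro v hv
    have h1 : ((Zh K b ⊓ Subgroup.centralizer {v} : Subgroup G) : Set G).Finite := by
      refine hv.subset ?_
      rintro x ⟨hx1, hx2⟩
      exact ⟨mem_Cz.2 ⟨(mem_Zh.1 hx1).1, Subgroup.mem_centralizer_singleton_iff.1 hx2⟩,
        (mem_Zh.1 hx1).2⟩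
    have : Finite (Zh K b ⊓ Subgroup.centralizer {v} : Subgroup G) := h1
    refine Fct.idx (R := ((Zh K b ⊓ Subgroup.centralizer {v} : Subgroup G) : Set G)) h1 ?_
    intro g hg
    exact ⟨g, hg, 1, Subgroup.one_mem _, (one_mul g).symm⟩
  have h2 := cnt G K a b c h m.fin (Zh K b) (Cz K b ⊓ Zh K b) Zh_leK inf_le_right (Zh_inv h) hV
    (Zh_lf m u1) ?_
  · exact fun h0 => h2 (Subgroup.relIndex_eq_zero_of_le_left inf_le_left h0)
  · rintro v (rfl | rfl | rfl)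
    · exact hfin _ u2
    · have e : Zh K v ⊓ Subgroup.centralizer {v} ≤ Cz K v ⊓ Zh K v := by
        rintro x ⟨hx1, hx2⟩
        exact ⟨mem_Cz.2 ⟨(mem_Zh.1 hx1).1, Subgroup.mem_centralizer_singleton_iff.1 hx2⟩, hx1⟩
      rw [Subgroup.relIndex_eq_one.2 e]
      exact one_ne_zero
    · exact hfin _ u1

end Pool.Agent.FourGp.FF.Hz
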