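import Pool.Agent.Lib.MP_fb3619_al.Main

/-!
# MP_fb3619_al, LEMMA Y, part 1: `C_K(a)` acts additively on `J_c × J_b`

Every collineation `(s, s)` fixing the point `a` acts additively on the coordinates of the class of
`a`. For `x ∈ C_K(a)` we get `R_x = C_x + S_x`, `C_x` diagonal and `S_x` off-diagonal.
-/

set_option autoImplicit false

universe u

namespace Pool.Agent.FourGp.H71

open Equiv
open Pool.Agent.FourGp.H18 (EE Rep rep_unique rep_mul rep_one rep_pow eps eps_apply eps_eps no2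
  cb cb_val rep_cb cb_cb)

variable {G : Type u} [Group G] {H K : Subgroup G} {a b c : G}

/-- The element `α` belongs to `K` and commutes with `a`. -/
def XA (K : Subgroup G) (a α : G) : Prop := α ∈ K ∧ α * a = a * α

theorem XA.one {K : Subgroup G} {a : G} : XA K a 1 := ⟨K.one_mem, by rw [one_mul, mul_one]⟩

theorem XA.mul {K : Subgroup G} {a α β : G} (h1 : XA K a α) (h2 : XA K a β) : XA K a (α * β) :=
  ⟨K.mul_mem h1.1 h2.1, Commute.mul_left (show Commute α a from h1.2)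
    (show Commute β a from h2.2)⟩

theorem XA.inv {K : Subgroup G} {a α : G} (h1 : XA K a α) : XA K a α⁻¹ :=
  ⟨K.inv_mem h1.1, (show Commute α a from h1.2).inv_left⟩

theorem XA.pow {K : Subgroup G} {a α : G} (h1 : XA K a α) (n : ℕ) : XA K a (α ^ n) :=
  ⟨K.pow_mem h1.1 n, (show Commute α a from h1.2).pow_left n⟩

theorem J.xa {h : Cfg H K a b c} (γ : J h) : XA K c γ.1 := ⟨γ.memK, γ.2.2⟩

/-- `b` inverts `C_K(a)`. -/
theorem inv_ba (h : Cfg H K a b c) {α : G} (hα : XA K a α) : b * α * b = α⁻¹ :=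
  h.rot.inv_a hα.1 hα.2

/-- `c` inverts `C_K(a)`. -/
theorem inv_ca (h : Cfg H K a b c) {α : G} (hα : XA K a α) : c * α * c = α⁻¹ :=
  h.rot.inv_b hα.1 hα.2

/-- `C_K(a)` is abelian. -/
theorem XA.comm (h : Cfg H K a b c) {α β : G} (h1 : XA K a α) (h2 : XA K a β) :
    α * β = β * α := by
  have e1 := inv_ba h h1
  have e2 := inv_ba h h2
  have e3 := inv_ba h (h1.mul h2)
  have h4 : α⁻¹ * β⁻¹ = (α * β)⁻¹ := by
    rw [← e1, ← e2, ← e3]
    calc b * α * b * (b * β * b) = b * α * (b * b) * β * b := by group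
      _ = b * (α * β) * b := by rw [h.hbb]; group
  have := congrArg (fun x => x⁻¹) h4
  simpa using this.symm

/-- Conjugation by `α ∈ C_K(a)`. -/
def cjx (h : Cfg H K a b c) {α : G} (hα : α ∈ K) : Perm (Pt H) := cj H ⟨α, h.le hα⟩

theorem cjx_val (h : Cfg H K a b c) {α : G} (hα : α ∈ K) (x : Pt H) :
    (cjx h hα x).1 = α⁻¹ * x.1 * α := rfl

theorem cjx_col (h : Cfg H K a b c) {α : G} (hα : α ∈ K) :
    (inc H K).Col (cjx h hα, cjx h hα) := part1_cjc G H K a b c h ⟨α, h.le hα⟩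

theorem cjx_pa (h : Cfg H K a b c) {α : G} (hα : XA K a α) : cjx h hα.1 h.pa = h.pa := by
  apply Subtype.ext
  rw [cjx_val]
  change α⁻¹ * a * α = a
  rw [mul_assoc, ← hα.2, ← mul_assoc, inv_mul_cancel, one_mul]

/-! ### Additivity -/

/-- Every collineation of the form `(s, s)` fixing `a` acts additively on the class of `a`. -/
theorem rota_gen (h : Cfg H K a b c) (s : Perm (Pt H)) (hσ : (inc H K).Col (s, s))
    (hpa : s h.pa = h.pa) : ∃ R : AddMonoid.End (EE h), Rep h s R := by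
  obtain ⟨c1, c2, c3, c4, c5, c6, -⟩ := part3_coor G H K a b c h
  have hg := h.geo
  have hsim : ∀ z, (inc H K).sim h.pa z → (inc H K).sim h.pa (s z) := by
    intro z hz
    have h1 := ((part1_eqv _ _ hg).2.2 _ hσ _ _ hz).1
    change (inc H K).sim (s h.pa) (s z) at h1
    rwa [hpa] at h1
  have h00 : IsC h h.pa 0 0 := by
    have h1 := c6 0
    rwa [J.ap_zero] at h1
  have hR : ∀ u : J h × J h.rot.rot, ∃ v : J h × J h.rot.rot,
      ∀ z, IsC h z u.1 u.2 → IsC h (s z) v.1 v.2 := by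
    intro u
    obtain ⟨z, hz⟩ := c2 u.1 u.2
    obtain ⟨γ, β, i⟩ := c1 _ (hsim _ (c3 _ _ _ hz))
    refine ⟨(γ, β), fun z' hz' => ?_⟩
    rw [c5 z' z _ _ hz' hz]
    exact i
  choose R hR using hR
  have hadd : ∀ u v, R (u + v) = R u + R v := by
    intro u v
    obtain ⟨τ, ht1, ht2, ht3⟩ := H82.exists_tau part3_tran h u.1 u.2
    obtain ⟨τ', -, ht2', ht3'⟩ := H82.exists_tau part3_tran h (R v).1 (R v).2
    obtain ⟨z, hz⟩ := c2 v.1 v.2
    have k1 := hR v z hz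
    have k2 : s z = τ'.1 h.pa := by
      refine c5 _ _ _ _ k1 ?_
      have := ht3' _ _ _ h00
      rwa [add_zero, add_zero] at this
    have k3 : IsC h (τ.1 h.pa) u.1 u.2 := by
      have := ht3 _ _ _ h00
      rwa [add_zero, add_zero] at this
    have k4 : IsC h (s (τ.1 h.pa)) (R u).1 (R u).2 := hR u _ k3
    have k5 : IsC h (τ.1 z) (u + v).1 (u + v).2 := ht3 _ _ _ hz
    have k6 : IsC h (s (τ.1 z)) (R (u + v)).1 (R (u + v)).2 := hR _ _ k5
    have k7 := part1_ncom _ _ hg h.lemF h.pa _ _ (ht1 (s, s) hσ hpa) ht2' h.pa (hg.st_refl _)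
    have k8 : ∀ w, (((s, s) * τ * (s, s)⁻¹ : Perm (Pt H) × Perm (Pt H)).1) (s w) = s (τ.1 w) := by
      intro w
      change s (τ.1 (s.symm (s w))) = s (τ.1 w)
      rw [Equiv.symm_apply_apply]
    have k9 : (((s, s) * τ * (s, s)⁻¹ : Perm (Pt H) × Perm (Pt H)).1) h.pa = s (τ.1 h.pa) := by
      have := k8 h.pa
      rwa [hpa] at this
    rw [k9, ← k2, k8 z] at k7
    have k10 : IsC h (s (τ.1 z)) ((R v).1 + (R u).1) ((R v).2 + (R u).2) := by
      rw [k7]
      exact ht3' _ _ _ k4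
    obtain ⟨e1, e2⟩ := c4 _ _ _ _ _ k6 k10
    refine Prod.ext ?_ ?_
    · rw [e1, add_comm]; rfl
    · rw [e2, add_comm]; rfl
  exact ⟨AddMonoidHom.mk' R hadd, fun z γ β i => hR (γ, β) z i⟩

theorem exists_Rm (h : Cfg H K a b c) {α : G} (hα : XA K a α) :
    ∃ R : AddMonoid.End (EE h), Rep h (cjx h hα.1) R :=
  rota_gen h _ (cjx_col h hα.1) (cjx_pa h hα)

open Classical in
/-- The additive map `R_α`. -/
noncomputable def Rm (h : Cfg H K a b c) (α : G) : AddMonoid.End (EE h) :=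
  if hα : XA K a α then Classical.choose (exists_Rm h hα) else 1

theorem Rm_rep (h : Cfg H K a b c) {α : G} (hα : XA K a α) : Rep h (cjx h hα.1) (Rm h α) := by
  unfold Rm
  rw [dif_pos hα]
  exact Classical.choose_spec (exists_Rm h hα)

theorem Rm_eq (h : Cfg H K a b c) {α : G} (hα : XA K a α) {f : AddMonoid.End (EE h)}
    (hf : Rep h (cjx h hα.1) f) : Rm h α = f :=
  rep_unique part3_coor (Rm_rep h hα) hf

theorem Rm_one (h : Cfg H K a b c) : Rm h 1 = 1 := by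
  refine Rm_eq h XA.one ?_
  have e : cjx h (XA.one (K := K) (a := a)).1 = 1 := by
    refine Equiv.ext fun x => Subtype.ext ?_
    rw [cjx_val]
    simp
  rw [e]
  exact rep_one

theorem Rm_mul (h : Cfg H K a b c) {α β : G} (hα : XA K a α) (hβ : XA K a β) :
    Rm h (α * β) = Rm h α * Rm h β := by
  refine Rm_eq h (hα.mul hβ) ?_
  have e : cjx h (hα.mul hβ).1 = cjx h hα.1 * cjx h hβ.1 := by
    refine Equiv.ext fun x => Subtype.ext ?_
    change _ = (cjx h hα.1 (cjx h hβ.1 x)).1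
    rw [cjx_val, cjx_val, cjx_val, XA.comm h hα hβ]
    group
  rw [e]
  exact rep_mul (Rm_rep h hα) (Rm_rep h hβ)

theorem Rm_comm (h : Cfg H K a b c) {α β : G} (hα : XA K a α) (hβ : XA K a β) :
    Rm h α * Rm h β = Rm h β * Rm h α := by
  rw [← Rm_mul h hα hβ, ← Rm_mul h hβ hα, XA.comm h hα hβ]

theorem Rm_inv (h : Cfg H K a b c) {α : G} (hα : XA K a α) : Rm h α * Rm h α⁻¹ = 1 := by
  rw [← Rm_mul h hα hα.inv, mul_inv_cancel, Rm_one]

theorem Rm_inv' (h : Cfg H K a b c) {α : G} (hα : XA K a α) : Rm h α⁻¹ * Rm h α = 1 := by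
  rw [← Rm_mul h hα.inv hα, inv_mul_cancel, Rm_one]

theorem Rm_pow (h : Cfg H K a b c) {α : G} (hα : XA K a α) (n : ℕ) :
    Rm h (α ^ n) = Rm h α ^ n := by
  induction n with
  | zero => rw [pow_zero, pow_zero, Rm_one]
  | succ n ih => rw [pow_succ, pow_succ, Rm_mul h (hα.pow n) hα, ih]

theorem Rm_odd (h : Cfg H K a b c) {α : G} (hα : XA K a α) : ∃ n : ℕ, Rm h α ^ (2 * n + 1) = 1 := by
  obtain ⟨n, hn⟩ := h.odd α hα.1
  exact ⟨n, by rw [← Rm_pow h hα, hn, Rm_one]⟩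

theorem Rm_eps (h : Cfg H K a b c) {α : G} (hα : XA K a α) :
    eps h * Rm h α * eps h = Rm h α⁻¹ := by
  refine (Rm_eq h hα.inv ?_).symm
  have e : cjx h hα.inv.1 = cb h * cjx h hα.1 * cb h := by
    refine Equiv.ext fun x => Subtype.ext ?_
    change _ = (cb h (cjx h hα.1 (cb h x))).1
    rw [cb_val, cjx_val, cjx_val, cb_val]
    have hb' : b⁻¹ = b := inv_eq_of_mul_eq_one_right h.hbb
    have h1 := inv_ba h hα
    have h2 : b * α⁻¹ * b = α := by
      rw [← h1]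
      calc b * (b * α * b) * b = (b * b) * α * (b * b) := by group
        _ = α := by rw [h.hbb]; group
    rw [hb', inv_inv]
    calc α * x.1 * α⁻¹ = (b * α⁻¹ * b) * x.1 * (b * α * b) := by rw [h1, h2]
      _ = b * (α⁻¹ * (b * x.1 * b) * α) * b := by group
  rw [e]
  exact rep_mul (rep_mul (rep_cb h) (Rm_rep h hα)) (rep_cb h)

/-- An element of odd order without fixed points: `R u = -u` implies `u = 0`. -/
theorem neg_fix (h : Cfg H K a b c) {α : G} (hα : XA K a α) {u : EE h} (e : Rm h α u = -u) :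
    u = 0 := by
  obtain ⟨n, hn⟩ := Rm_odd h hα
  have e2 : ∀ m : ℕ, (Rm h α ^ (2 * m)) u = u := by
    intro m
    induction m with
    | zero => rfl
    | succ m ih =>
      have e3 : 2 * (m + 1) = 2 * m + 1 + 1 := by ring
      rw [e3, pow_succ, pow_succ]
      change (Rm h α ^ (2 * m)) (Rm h α (Rm h α u)) = u
      rw [e, map_neg, e, neg_neg, ih]
  have e4 : (Rm h α ^ (2 * n + 1)) u = -u := by
    rw [pow_succ]
    change (Rm h α ^ (2 * n)) (Rm h α u) = -u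
    rw [e, map_neg, e2]
  rw [hn] at e4
  have e5 : u = -u := e4
  have e6 : u + u = 0 := by
    nth_rewrite 2 [e5]
    exact add_neg_cancel u
  refine Prod.ext ?_ ?_
  · exact (part2_neg G H K a b c h).2 _ (congrArg Prod.fst e6)
  · exact (part2_neg G H K c a b h.rot.rot).2 _ (congrArg Prod.snd e6)

/-- `R² u = u` implies `R u = u`. -/
theorem sq_fix (h : Cfg H K a b c) {α : G} (hα : XA K a α) {u : EE h}
    (e : Rm h α (Rm h α u) = u) : Rm h α u = u := by
  have h1 : Rm h α (u - Rm h α u) = -(u - Rm h α u) := by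
    rw [map_sub, e, neg_sub]
  have h2 := neg_fix h hα h1
  exact (sub_eq_zero.1 h2).symm

/-! ### Components -/

/-- `C_α` on `J_c`. -/
noncomputable def Cc (h : Cfg H K a b c) (α : G) : J h →+ J h :=
  (AddMonoidHom.fst (J h) (J h.rot.rot)).comp
    ((Rm h α).comp (AddMonoidHom.inl (J h) (J h.rot.rot)))

/-- `C_α` on `J_b`. -/
noncomputable def Cb (h : Cfg H K a b c) (α : G) : J h.rot.rot →+ J h.rot.rot :=
  (AddMonoidHom.snd (J h) (J h.rot.rot)).comp
    ((Rm h α).comp (AddMonoidHom.inr (J h) (J h.rot.rot)))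

/-- `S_α : J_c → J_b`. -/
noncomputable def Sc (h : Cfg H K a b c) (α : G) : J h →+ J h.rot.rot :=
  (AddMonoidHom.snd (J h) (J h.rot.rot)).comp
    ((Rm h α).comp (AddMonoidHom.inl (J h) (J h.rot.rot)))

/-- `S_α : J_b → J_c`. -/
noncomputable def Sb (h : Cfg H K a b c) (α : G) : J h.rot.rot →+ J h :=
  (AddMonoidHom.fst (J h) (J h.rot.rot)).comp
    ((Rm h α).comp (AddMonoidHom.inr (J h) (J h.rot.rot)))

theorem Cc_apply (h : Cfg H K a b c) (α : G) (γ : J h) : Cc h α γ = (Rm h α (γ, 0)).1 := rfl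
theorem Cb_apply (h : Cfg H K a b c) (α : G) (β : J h.rot.rot) :
    Cb h α β = (Rm h α (0, β)).2 := rfl
theorem Sc_apply (h : Cfg H K a b c) (α : G) (γ : J h) : Sc h α γ = (Rm h α (γ, 0)).2 := rfl
theorem Sb_apply (h : Cfg H K a b c) (α : G) (β : J h.rot.rot) :
    Sb h α β = (Rm h α (0, β)).1 := rfl

theorem Rm_c (h : Cfg H K a b c) (α : G) (γ : J h) : Rm h α (γ, 0) = (Cc h α γ, Sc h α γ) := rfl

theorem Rm_b (h : Cfg H K a b c) (α : G) (β : J h.rot.rot) :
    Rm h α (0, β) = (Sb h α β, Cb h α β) := rfl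

theorem Rm_apply (h : Cfg H K a b c) (α : G) (γ : J h) (β : J h.rot.rot) :
    Rm h α (γ, β) = (Cc h α γ + Sb h α β, Sc h α γ + Cb h α β) := by
  have e : ((γ, β) : EE h) = (γ, 0) + (0, β) := by rw [Prod.mk_add_mk, add_zero, zero_add]
  rw [e, map_add, Rm_c, Rm_b, Prod.mk_add_mk]

theorem Rm_inv_apply (h : Cfg H K a b c) {α : G} (hα : XA K a α) (γ : J h) (β : J h.rot.rot) :
    Rm h α⁻¹ (γ, β) = (Cc h α γ - Sb h α β, Cb h α β - Sc h α γ) := by
  rw [← Rm_eps h hα]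
  change eps h (Rm h α (eps h (γ, β))) = _
  rw [eps_apply, Rm_apply, eps_apply]
  refine Prod.ext ?_ ?_
  · show -(Cc h α (-γ) + Sb h α β) = Cc h α γ - Sb h α β
    rw [map_neg, neg_add, neg_neg, sub_eq_add_neg]
  · show Sc h α (-γ) + Cb h α β = Cb h α β - Sc h α γ
    rw [map_neg, sub_eq_add_neg, add_comm]

theorem Cc_inv (h : Cfg H K a b c) {α : G} (hα : XA K a α) (γ : J h) :
    Cc h α⁻¹ γ = Cc h α γ := by
  have e : (Rm h α⁻¹ (γ, 0)).1 = Cc h α γ - Sb h α 0 :=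
    congrArg Prod.fst (Rm_inv_apply h hα γ 0)
  rw [map_zero, sub_zero] at e
  exact e

theorem Cb_inv (h : Cfg H K a b c) {α : G} (hα : XA K a α) (β : J h.rot.rot) :
    Cb h α⁻¹ β = Cb h α β := by
  have e : (Rm h α⁻¹ (0, β)).2 = Cb h α β - Sc h α 0 :=
    congrArg Prod.snd (Rm_inv_apply h hα 0 β)
  rw [map_zero, sub_zero] at e
  exact e

theorem Sc_inv (h : Cfg H K a b c) {α : G} (hα : XA K a α) (γ : J h) :
    Sc h α⁻¹ γ = -Sc h α γ := by
  have e : (Rm h α⁻¹ (γ, 0)).2 = Cb h α 0 - Sc h α γ :=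
    congrArg Prod.snd (Rm_inv_apply h hα γ 0)
  rw [map_zero, zero_sub] at e
  exact e

theorem Sb_inv (h : Cfg H K a b c) {α : G} (hα : XA K a α) (β : J h.rot.rot) :
    Sb h α⁻¹ β = -Sb h α β := by
  have e : (Rm h α⁻¹ (0, β)).1 = Cc h α 0 - Sb h α β :=
    congrArg Prod.fst (Rm_inv_apply h hα 0 β)
  rw [map_zero, zero_sub] at e
  exact e

theorem no2c (h : Cfg H K a b c) {u v : J h} (e : u + u = v + v) : u = v := by
  have h1 : (u - v) + (u - v) = 0 := by
    have : (u - v) + (u - v) = (u + u) - (v + v) := by abel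
    rw [this, e, sub_self]
  exact sub_eq_zero.1 ((part2_neg G H K a b c h).2 _ h1)

theorem no2b (h : Cfg H K a b c) {u v : J h.rot.rot} (e : u + u = v + v) : u = v :=
  no2c h.rot.rot e

/-- Products of the components: from `R_α R_β = R_β R_α` and `R_α⁻¹ R_β = R_β R_α⁻¹`. -/
theorem comp_c (h : Cfg H K a b c) {α β : G} (hα : XA K a α) (hβ : XA K a β) (γ : J h) :
    Cc h α (Cc h β γ) = Cc h β (Cc h α γ) ∧ Sb h α (Sc h β γ) = Sb h β (Sc h α γ) ∧
    Sc h α (Cc h β γ) = Cb h β (Sc h α γ) := by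
  have e1 : Rm h α (Rm h β (γ, 0)) = Rm h β (Rm h α (γ, 0)) :=
    congrArg (fun f : AddMonoid.End (EE h) => f (γ, 0)) (Rm_comm h hα hβ)
  have e2 : Rm h α⁻¹ (Rm h β (γ, 0)) = Rm h β (Rm h α⁻¹ (γ, 0)) :=
    congrArg (fun f : AddMonoid.End (EE h) => f (γ, 0)) (Rm_comm h hα.inv hβ)
  rw [Rm_c, Rm_c, Rm_apply, Rm_apply] at e1
  rw [Rm_c, Rm_c, Rm_inv_apply h hα, Rm_apply, Cc_inv h hα, Sc_inv h hα] at e2
  have a1 := congrArg Prod.fst e1
  have a2 := congrArg Prod.snd e1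
  have a3 := congrArg Prod.fst e2
  have a4 := congrArg Prod.snd e2
  simp only [map_neg] at a1 a2 a3 a4
  refine ⟨?_, ?_, ?_⟩
  · apply no2c h
    have := congrArg₂ (· + ·) a1 a3
    have e : Cc h α (Cc h β γ) + Cc h α (Cc h β γ) =
      (Cc h α (Cc h β γ) + Sb h α (Sc h β γ)) + (Cc h α (Cc h β γ) - Sb h α (Sc h β γ)) := by abel
    rw [e, this]
    abel
  · apply no2c h
    have := congrArg₂ (· - ·) a1 a3
    have e : Sb h α (Sc h β γ) + Sb h α (Sc h β γ) =
      (Cc h α (Cc h β γ) + Sb h α (Sc h β γ)) - (Cc h α (Cc h β γ) - Sb h α (Sc h β γ)) := by abel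
    rw [e, this]
    abel
  · apply no2b h
    have := congrArg₂ (· - ·) a2 a4
    have e : Sc h α (Cc h β γ) + Sc h α (Cc h β γ) =
      (Sc h α (Cc h β γ) + Cb h α (Sc h β γ)) - (Cb h α (Sc h β γ) - Sc h α (Cc h β γ)) := by abel
    rw [e, this]
    abel

theorem comp_b (h : Cfg H K a b c) {α β : G} (hα : XA K a α) (hβ : XA K a β)
    (y : J h.rot.rot) :
    Cb h α (Cb h β y) = Cb h β (Cb h α y) ∧ Sc h α (Sb h β y) = Sc h β (Sb h α y) ∧
    Sb h α (Cb h β y) = Cc h β (Sb h α y) := by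
  have e1 : Rm h α (Rm h β (0, y)) = Rm h β (Rm h α (0, y)) :=
    congrArg (fun f : AddMonoid.End (EE h) => f (0, y)) (Rm_comm h hα hβ)
  have e2 : Rm h α⁻¹ (Rm h β (0, y)) = Rm h β (Rm h α⁻¹ (0, y)) :=
    congrArg (fun f : AddMonoid.End (EE h) => f (0, y)) (Rm_comm h hα.inv hβ)
  rw [Rm_b, Rm_b, Rm_apply, Rm_apply] at e1
  rw [Rm_b, Rm_b, Rm_inv_apply h hα, Rm_apply, Cb_inv h hα, Sb_inv h hα] at e2
  have a1 := congrArg Prod.fst e1
  have a2 := congrArg Prod.snd e1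
  have a3 := congrArg Prod.fst e2
  have a4 := congrArg Prod.snd e2
  simp only [map_neg] at a1 a2 a3 a4
  refine ⟨?_, ?_, ?_⟩
  · apply no2b h
    have := congrArg₂ (· + ·) a2 a4
    have e : Cb h α (Cb h β y) + Cb h α (Cb h β y) =
      (Sc h α (Sb h β y) + Cb h α (Cb h β y)) + (Cb h α (Cb h β y) - Sc h α (Sb h β y)) := by abel
    rw [e, this]
    abel
  · apply no2b h
    have := congrArg₂ (· - ·) a2 a4
    have e : Sc h α (Sb h β y) + Sc h α (Sb h β y) =
      (Sc h α (Sb h β y) + Cb h α (Cb h β y)) - (Cb h α (Cb h β y) - Sc h α (Sb h β y)) := by abel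
    rw [e, this]
    abel
  · apply no2c h
    have := congrArg₂ (· - ·) a1 a3
    have e : Sb h α (Cb h β y) + Sb h α (Cb h β y) =
      (Cc h α (Sb h β y) + Sb h α (Cb h β y)) - (Cc h α (Sb h β y) - Sb h α (Cb h β y)) := by abel
    rw [e, this]
    abel

/-- `C_α` is injective on `J_c`. -/
theorem Cc_inj (h : Cfg H K a b c) {α : G} (hα : XA K a α) {γ : J h} (e : Cc h α γ = 0) :
    γ = 0 := by
  -- `R γ = -R⁻¹ γ`
  have e1 : Rm h α (γ, 0) = -(Rm h α⁻¹ (γ, 0)) := by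
    rw [Rm_c, Rm_c, Cc_inv h hα, Sc_inv h hα, e]
    refine Prod.ext ?_ ?_
    · show (0 : J h) = -0
      rw [neg_zero]
    · show Sc h α γ = - -Sc h α γ
      rw [neg_neg]
  have e2 : Rm h (α * α) (γ, 0) = -(γ, 0) := by
    rw [Rm_mul h hα hα]
    change Rm h α (Rm h α (γ, 0)) = _
    rw [e1, map_neg]
    have : Rm h α (Rm h α⁻¹ (γ, 0)) = (γ, 0) :=
      congrArg (fun f : AddMonoid.End (EE h) => f (γ, 0)) (Rm_inv h hα)
    rw [this]
  have e3 := neg_fix h (hα.mul hα) e2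
  exact congrArg Prod.fst e3

end Pool.Agent.FourGp.H71
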