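import Pool.Agent.Lib.MP_fb3619_al.H71.Gy
import Pool.Agent.Lib.MP_fb3619_al.FF.Util
import Pool.Agent.Lib.MP_fb3619_al.FF.Sh

/-!
# MP_fb3619_al, LEMMA Y, part 4: the computation
-/

set_option autoImplicit false

universe u v

namespace Pool.Agent.FourGp.H71

open Equiv
open Pool.Agent.FourGp.H18 (EE Rep)
open Pool.Agent.FourGp.FF (Cz mem_Cz fi relIndex_of_cover cover_of_relIndex)

variable {G : Type u} [Group G] {H K : Subgroup G} {a b c : G}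

/-! ### Finite index from finitely many values -/

theorem fi_of_map {Y : Type v} {D : Subgroup G} {s : G} (f : G → Y)
    (hf : {y | ∃ x ∈ D, y = f x}.Finite)
    (hi : ∀ x ∈ D, ∀ y ∈ D, f x = f y → (y * x⁻¹) * s = s * (y * x⁻¹)) : fi D s := by
  classical
  have h1 : ∀ y ∈ {y | ∃ x ∈ D, y = f x}, ∃ r : G, r ∈ D ∧ y = f r := fun y hy => hy
  choose! r hr using h1
  refine relIndex_of_cover (r '' {y | ∃ x ∈ D, y = f x}) (hf.image r) ?_
  intro g hg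
  have hm : f g ∈ {y | ∃ x ∈ D, y = f x} := ⟨g, hg, rfl⟩
  refine ⟨_, Set.mem_image_of_mem r hm, ?_⟩
  rw [Subgroup.mem_centralizer_singleton_iff]
  exact hi _ (hr _ hm).1 g hg (hr _ hm).2.symm

theorem fin1 {A B C : Type u} [AddCommGroup A] [AddCommGroup B] [AddCommGroup C] (k : A →+ B)
    (f : A →+ C) (hk : {y | ∃ x, y = k x}.Finite) (hf : {y | ∃ x, k x = 0 ∧ y = f x}.Finite) :
    {y | ∃ x, y = f x}.Finite := by
  classical
  have h1 : ∀ y ∈ {y | ∃ x, y = k x}, ∃ r : A, y = k r := fun y hy => hy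
  choose! r hr using h1
  refine ((hk.image fun y => f (r y)).image2 (fun u v => u + v) hf).subset ?_
  rintro _ ⟨x, rfl⟩
  have hm : k x ∈ {y | ∃ x, y = k x} := ⟨x, rfl⟩
  refine ⟨f (r (k x)), ⟨k x, hm, rfl⟩, f (x - r (k x)), ⟨_, ?_, rfl⟩, ?_⟩
  · rw [map_sub, ← hr _ hm, sub_self]
  · show f (r (k x)) + f (x - r (k x)) = f x
    rw [map_sub]
    abel

/-! ### Fixed points of `R_x` -/

theorem Rm_fix_c (h : Cfg H K a b c) {x : G} (hx : XA K a x) (γ : J h) :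
    Rm h x (γ, 0) = (γ, 0) ↔ x * γ.1 = γ.1 * x := by
  obtain ⟨c1, c2, c3, c4, c5, c6, c7⟩ := part3_coor G H K a b c h
  have h1 := Rm_rep h hx _ _ _ (c6 γ)
  constructor
  · intro e
    rw [e] at h1
    have h2 := congrArg Subtype.val (c5 _ _ _ _ h1 (c6 γ))
    rw [cjx_val, J.ap_val] at h2
    have h3 : a * γ.1 * x = x * (a * γ.1) := by
      calc a * γ.1 * x = x * (x⁻¹ * (a * γ.1) * x) := by group
        _ = x * (a * γ.1) := by rw [h2]
    have h4 : a * (γ.1 * x) = a * (x * γ.1) := by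
      calc a * (γ.1 * x) = a * γ.1 * x := by group
        _ = x * a * γ.1 := by rw [h3]; group
        _ = a * (x * γ.1) := by rw [hx.2]; group
    exact (mul_left_cancel h4).symm
  · intro e
    have h2 : cjx h hx.1 (J.ap h γ) = J.ap h γ := by
      apply Subtype.ext
      rw [cjx_val, J.ap_val]
      calc x⁻¹ * (a * γ.1) * x = x⁻¹ * a * (γ.1 * x) := by group
        _ = x⁻¹ * (a * x) * γ.1 := by rw [← e]; group
        _ = a * γ.1 := by rw [← hx.2]; group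
    rw [h2] at h1
    obtain ⟨e1, e2⟩ := c4 _ _ _ _ _ h1 (c6 γ)
    exact Prod.ext e1 e2

theorem Cc_fix (h : Cfg H K a b c) {x : G} (hx : XA K a x) {γ : J h}
    (e : x * γ.1 = γ.1 * x) : Cc h x γ = γ :=
  congrArg Prod.fst ((Rm_fix_c h hx γ).2 e)

theorem Sc_fix (h : Cfg H K a b c) {x : G} (hx : XA K a x) {γ : J h}
    (e : x * γ.1 = γ.1 * x) : Sc h x γ = 0 :=
  congrArg Prod.snd ((Rm_fix_c h hx γ).2 e)

/-- (G3) on `J_c`. -/
theorem Sc_inj (h : Cfg H K a b c) {x y : G} (hx : XA K a x) (hy : XA K a y) {γ : J h}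
    (e : Sc h x γ = Sc h y γ) : (y * x⁻¹) * γ.1 = γ.1 * (y * x⁻¹) := by
  set u : EE h := (γ, 0) with hu
  have k1 : Rm h x u - Rm h x⁻¹ u = Rm h y u - Rm h y⁻¹ u := by
    rw [hu, Rm_c, Rm_c, Rm_c, Rm_c, Cc_inv h hx, Cc_inv h hy, Sc_inv h hx, Sc_inv h hy, e]
    refine Prod.ext ?_ rfl
    show Cc h x γ - Cc h x γ = Cc h y γ - Cc h y γ
    rw [sub_self, sub_self]
  have hd : XA K a (x⁻¹ * y⁻¹) := hx.inv.mul hy.inv
  have m1 : Rm h (x⁻¹ * y⁻¹) (Rm h x u) = Rm h y⁻¹ u := by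
    have e1 : Rm h (x⁻¹ * y⁻¹) * Rm h x = Rm h y⁻¹ := by
      rw [← Rm_mul h hd hx]
      congr 1
      rw [XA.comm h hd hx]
      group
    exact congrArg (fun f : AddMonoid.End (EE h) => f u) e1
  have m2 : Rm h (x⁻¹ * y⁻¹) (Rm h y u) = Rm h x⁻¹ u := by
    have e1 : Rm h (x⁻¹ * y⁻¹) * Rm h y = Rm h x⁻¹ := by
      rw [← Rm_mul h hd hy]
      congr 1
      group
    exact congrArg (fun f : AddMonoid.End (EE h) => f u) e1
  have k2 : Rm h (x⁻¹ * y⁻¹) (Rm h x u - Rm h y u) = -(Rm h x u - Rm h y u) := by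
    rw [map_sub, m1, m2]
    have e2 : Rm h x u - Rm h y u = Rm h x⁻¹ u - Rm h y⁻¹ u := by
      have := k1
      rw [sub_eq_sub_iff_add_eq_add] at this ⊢
      rw [this]
      abel
    rw [e2]
    abel
  have k3 := sub_eq_zero.1 (neg_fix h hd k2)
  have k4 : Rm h (y * x⁻¹) u = u := by
    have e1 : Rm h (y * x⁻¹) = Rm h x⁻¹ * Rm h y := by
      rw [Rm_mul h hy hx.inv, Rm_comm h hy hx.inv]
    rw [e1]
    change Rm h x⁻¹ (Rm h y u) = u
    rw [← k3]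
    exact congrArg (fun f : AddMonoid.End (EE h) => f u) (Rm_inv' h hx)
  exact (Rm_fix_c h (hy.mul hx.inv) γ).1 k4

theorem fiJc (h : Cfg H K a b c) {γ : J h} (hf : {y | ∃ x ∈ Cz K a, y = Sc h x γ}.Finite) :
    fi (Cz K a) γ.1 :=
  fi_of_map (fun x => Sc h x γ) hf fun x hx y hy e => Sc_inj h (mem_Cz.1 hx) (mem_Cz.1 hy) e

theorem fiJb (h : Cfg H K a b c) {β : J h.rot.rot}
    (hf : {y | ∃ x ∈ Cz K a, y = Sb h x β}.Finite) : fi (Cz K a) β.1 :=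
  fi_of_map (fun x => Sb h x β) hf fun x hx y hy e => gq_inj h (mem_Cz.1 hx) (mem_Cz.1 hy)
    (J.xa β) (by rw [gq_Sb h (mem_Cz.1 hx), gq_Sb h (mem_Cz.1 hy)]; exact e)

theorem Zb.fi (h : Cfg H K a b c) {β : J h.rot.rot} (hz : Zb h β) : fi (Cz K a) β.1 := by
  refine relIndex_of_cover {1} (Set.finite_singleton 1) fun g hg => ⟨1, rfl, ?_⟩
  rw [inv_one, mul_one, Subgroup.mem_centralizer_singleton_iff]
  exact hz g (mem_Cz.1 hg)

theorem gq_two' (h : Cfg H K a b c) {x y q : G} (hx : XA K a x) (hy : XA K a y)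
    (hq : XA K b q) : ∃ z, Zb h z ∧ Sc h x (gq h y q) = Sc h y (gq h x q) + z :=
  ⟨_, gq_two h hx hy hq, by abel⟩

/-! ### The automorphism -/

/-- The data of the automorphism `e`. -/
structure ED (h : Cfg H K a b c) (e : G) (ec ec' : J h →+ J h)
    (eb : J h.rot.rot →+ J h.rot.rot) : Prop where
  Xa : ∀ x, XA K a x → XA K a (e⁻¹ * x * e)
  Xa' : ∀ x, XA K a x → XA K a (e * x * e⁻¹)
  Xb : ∀ x, XA K b x → XA K b (e⁻¹ * x * e)
  c1 : ∀ γ, ec (ec' γ) = γ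
  c2 : ∀ γ, ec' (ec γ) = γ
  g : ∀ x q, XA K a x → XA K b q → gq h (e⁻¹ * x * e) (e⁻¹ * q * e) = ec (gq h x q)
  sc : ∀ x, XA K a x → ∀ γ, Sc h (e⁻¹ * x * e) (ec γ) = eb (Sc h x γ)
  sb : ∀ x, XA K a x → ∀ β, Sb h (e⁻¹ * x * e) (eb β) = ec (Sb h x β)

section main

variable (h : Cfg H K a b c) {e : G} {ec ec' : J h →+ J h} {eb : J h.rot.rot →+ J h.rot.rot}

/-- `Φ_b` -/
def PB : Set (J h.rot.rot) := {β | fi (Cz K a) β.1}

/-- `Φ_c` -/
def PC : Set (J h) := {γ | fi (Cz K a) γ.1}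

theorem PB_fin (hb : {q | XA K b q ∧ fi (Cz K a) q}.Finite) : (PB h).Finite :=
  Set.Finite.of_finite_image (f := fun β : J h.rot.rot => β.1) (hb.subset (by
    rintro _ ⟨β, hβ, rfl⟩
    exact ⟨J.xa β, hβ⟩)) fun x _ y _ e => Subtype.ext e

theorem PC_fin (hc : {t | XA K c t ∧ fi (Cz K a) t}.Finite) : (PC h).Finite :=
  Set.Finite.of_finite_image (f := fun γ : J h => γ.1) (hc.subset (by
    rintro _ ⟨γ, hγ, rfl⟩
    exact ⟨J.xa γ, hγ⟩)) fun x _ y _ e => Subtype.ext e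

theorem ZB_fin (hb : (PB h).Finite) : {z : J h.rot.rot | Zb h z}.Finite :=
  hb.subset fun _ hz => Zb.fi h hz

/-- `D(x, η)` -/
noncomputable def DD (e : G) (x η : G) : J h :=
  gq h x (e⁻¹ * (e⁻¹ * η * e) * e) - gq h x η

/-- The first step: the values of `D` are in a finite set. -/
theorem DD_one (D : ED h e ec ec' eb) (hΔ : {d : J h | ∃ γ, d = ec γ - γ}.Finite)
    (hb : (PB h).Finite) {x' η : G} (hx' : XA K a x') (hη : XA K b η) :
    ∃ w ∈ PC h, ∃ δ, (∃ γ, δ = ec' γ - γ) ∧ DD h e x' η = w - δ := by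
  classical
  have hΔ' : {d : J h | ∃ γ, d = ec' γ - γ}.Finite := by
    refine (hΔ.image fun d => -d).subset ?_
    rintro _ ⟨γ, rfl⟩
    refine ⟨_, ⟨ec' γ, rfl⟩, ?_⟩
    show -(ec (ec' γ) - ec' γ) = ec' γ - γ
    rw [D.c1, neg_sub]
  obtain ⟨x1, hx1, ex⟩ : ∃ x1, XA K a x1 ∧ e⁻¹ * x1 * e = x' :=
    ⟨e * x' * e⁻¹, D.Xa' _ hx', by group⟩
  have hE1 : XA K b (e⁻¹ * η * e) := D.Xb _ hη
  have hE2 : XA K b (e⁻¹ * (e⁻¹ * η * e) * e) := D.Xb _ hE1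
  set Γ : J h := gq h x' (e⁻¹ * (e⁻¹ * η * e) * e) with hΓ
  have g1 : gq h x1 (e⁻¹ * η * e) = ec' Γ := by
    rw [hΓ, ← ex, D.g x1 _ hx1 hE1, D.c2]
  refine ⟨Γ + (ec' Γ - Γ) - gq h x' η, ?_, ec' Γ - Γ, ⟨Γ, rfl⟩, ?_⟩
  swap
  · unfold DD
    rw [← hΓ]
    abel
  show fi (Cz K a) _
  apply fiJc h
  -- the finite set for given `x1`
  refine (((hb.image2 (fun u v => u - v) (ZB_fin h hb)).image2 (fun u d => u - Sc h x1 d)
    hΔ')).subset ?_
  rintro _ ⟨x0, hx0, rfl⟩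
  replace hx0 : XA K a x0 := mem_Cz.1 hx0
  set t : J h := gq h x0 (e⁻¹ * η * e) with ht
  set u : J h.rot.rot := Sc h x1 (ec' t) with hu
  set v : J h.rot.rot := u - Sc h x0 (gq h x' η) with hv
  -- `v ∈ Φ_b`
  have hvP : v ∈ PB h := by
    show fi (Cz K a) v.1
    apply fiJb h
    refine (hΔ.image2 (fun d3 d4 => Sb h x' (Sc h x0 d4) - d3) hΔ).subset ?_
    rintro _ ⟨x, hx, rfl⟩
    replace hx : XA K a x := mem_Cz.1 hx
    have hEx : XA K a (e⁻¹ * x * e) := D.Xa _ hx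
    refine ⟨ec (Sb h x u) - Sb h x u, ⟨_, rfl⟩, ec (gq h x η) - gq h x η, ⟨_, rfl⟩, ?_⟩
    show Sb h x' (Sc h x0 (ec (gq h x η) - gq h x η)) - (ec (Sb h x u) - Sb h x u) = Sb h x v
    -- left side
    have l1 : Sc h x' t = eb u := by
      rw [hu, ← D.sc x1 hx1, D.c1, ex]
    have l2 : Sb h (e⁻¹ * x * e) (Sc h x' t) = ec (Sb h x u) := by
      rw [l1, D.sb x hx]
    -- right side
    have r0 : Sb h (e⁻¹ * x * e) (Sc h x' t) = Sb h x' (Sc h (e⁻¹ * x * e) t) :=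
      (comp_c h hEx hx' t).2.1
    obtain ⟨z1, hz1, r1⟩ := gq_two' h hEx hx0 hE1
    rw [← ht, D.g x η hx hη] at r1
    obtain ⟨z2, hz2, r2⟩ := gq_two' h hx0 hx hη
    obtain ⟨z3, hz3, r3⟩ := gq_two' h hx' hx0 hη
    have kz1 : Sb h x' z1 = 0 := (Zb_iff h z1).1 hz1 x' hx'
    have kz2 : Sb h x' z2 = 0 := (Zb_iff h z2).1 hz2 x' hx'
    have kz3 : Sb h x z3 = 0 := (Zb_iff h z3).1 hz3 x hx
    have r4 : Sb h x' (Sc h x0 (gq h x η)) = Sb h x (Sc h x0 (gq h x' η)) := by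
      rw [r2, map_add, kz2, add_zero, (comp_c h hx' hx _).2.1, r3, map_add, kz3, add_zero]
    have r5 : ec (Sb h x u) = Sb h x' (Sc h x0 (ec (gq h x η))) := by
      rw [← l2, r0, r1, map_add, kz1, add_zero]
    rw [hv, map_sub, map_sub, map_sub, ← r5, r4]
    abel
  -- `S_x0 w`
  obtain ⟨z4, hz4, r6⟩ := gq_two' h hx1 hx0 hE1
  rw [g1, ← ht] at r6
  refine ⟨v - z4, ⟨v, hvP, z4, hz4, rfl⟩, ec' t - t, ⟨t, rfl⟩, ?_⟩
  show v - z4 - Sc h x1 (ec' t - t) = Sc h x0 (Γ + (ec' Γ - Γ) - gq h x' η)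
  rw [hv, hu, map_sub, r6]
  have e1 : Γ + (ec' Γ - Γ) - gq h x' η = ec' Γ - gq h x' η := by abel
  rw [e1, map_sub]
  abel

/-- The second step: `D(x, η) ∈ Φ_c`. -/
theorem DD_two (D : ED h e ec ec' eb) (hΔ : {d : J h | ∃ γ, d = ec γ - γ}.Finite)
    (hb : (PB h).Finite) (hc : (PC h).Finite) {x' η : G} (hx' : XA K a x') (hη : XA K b η) :
    DD h e x' η ∈ PC h := by
  have hΔ' : {d : J h | ∃ γ, d = ec' γ - γ}.Finite := by
    refine (hΔ.image fun d => -d).subset ?_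
    rintro _ ⟨γ, rfl⟩
    refine ⟨_, ⟨ec' γ, rfl⟩, ?_⟩
    show -(ec (ec' γ) - ec' γ) = ec' γ - γ
    rw [D.c1, neg_sub]
  have hE1 : XA K b (e⁻¹ * η * e) := D.Xb _ hη
  have hE2 : XA K b (e⁻¹ * (e⁻¹ * η * e) * e) := D.Xb _ hE1
  show fi (Cz K a) _
  apply fiJc h
  have hF : {d : J h | ∃ w ∈ PC h, ∃ δ, (∃ γ, δ = ec' γ - γ) ∧ d = w - δ}.Finite := by
    refine (hc.image2 (fun w d => w - d) hΔ').subset ?_
    rintro d ⟨w, hw, δ, hδ, rfl⟩
    exact ⟨w, hw, δ, hδ, rfl⟩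
  refine ((hF.image (Sc h x')).image2 (fun u z => u + z)
    ((ZB_fin h hb).image2 (fun u v => u - v) (ZB_fin h hb))).subset ?_
  rintro _ ⟨x, hx, rfl⟩
  replace hx : XA K a x := mem_Cz.1 hx
  obtain ⟨z1, hz1, r1⟩ := gq_two' h hx hx' hE2
  obtain ⟨z2, hz2, r2⟩ := gq_two' h hx hx' hη
  refine ⟨_, ⟨DD h e x η, DD_one h D hΔ hb hx hη, rfl⟩, z1 - z2, ⟨z1, hz1, z2, hz2, rfl⟩, ?_⟩
  show Sc h x' (DD h e x η) + (z1 - z2) = Sc h x (DD h e x' η)
  unfold DD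
  rw [map_sub, map_sub, r1, r2]
  abel

/-- LEMMA Y (1): `[η, e²] ∈ HD(C_K(a))` for `η ∈ C_K(b)`. -/
theorem y_one (D : ED h e ec ec' eb) (hΔ : {d : J h | ∃ γ, d = ec γ - γ}.Finite)
    (hb : {q | XA K b q ∧ fi (Cz K a) q}.Finite) (hc : {t | XA K c t ∧ fi (Cz K a) t}.Finite)
    {η : G} (hη : XA K b η) : fi (Cz K a) (η⁻¹ * (e⁻¹ * (e⁻¹ * η * e) * e)) := by
  classical
  have hb' := PB_fin h hb
  have hc' := PC_fin h hc
  have hE1 : XA K b (e⁻¹ * η * e) := D.Xb _ hη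
  have hE2 : XA K b (e⁻¹ * (e⁻¹ * η * e) * e) := D.Xb _ hE1
  -- the subgroup centralising `Φ_c`
  have hT : (Subgroup.centralizer ((hc.toFinset : Finset G) : Set G)).relIndex (Cz K a) ≠ 0 :=
    FF.relIndex_centralizer hc.toFinset (by
      intro x hx
      rw [Set.Finite.mem_toFinset] at hx
      exact hx.2)
  set A' : Subgroup G := Cz K a ⊓ Subgroup.centralizer ((hc.toFinset : Finset G) : Set G)
    with hA'
  have hA : A'.relIndex (Cz K a) ≠ 0 := by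
    refine Subgroup.relIndex_inf_ne_zero ?_ hT
    rw [Subgroup.relIndex_self]
    exact one_ne_zero
  have hcm : ∀ x ∈ A', ∀ d ∈ PC h, x * d.1 = d.1 * x := by
    intro x hx d hd
    have h1 := (Subgroup.mem_inf.1 hx).2
    rw [Subgroup.mem_centralizer_iff] at h1
    exact (h1 d.1 (by
      rw [Set.Finite.coe_toFinset]
      exact ⟨J.xa d, hd⟩)).symm
  have hXA : ∀ x ∈ A', XA K a x := fun x hx => mem_Cz.1 (Subgroup.mem_inf.1 hx).1
  have hP : ∀ x, XA K a x → DD h e x η ∈ PC h := fun x hx => DD_two h D hΔ hb' hc' hx hη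
  have hmul : ∀ x ∈ A', ∀ y ∈ A', DD h e (x * y) η = DD h e y η + DD h e x η := by
    intro x hx y hy
    have e1 : DD h e (x * y) η = Cc h x (DD h e y η) + Cc h y (DD h e x η) := by
      unfold DD
      rw [gq_mul h (hXA x hx) (hXA y hy) hE2, gq_mul h (hXA x hx) (hXA y hy) hη, map_sub,
        map_sub]
      abel
    rw [e1, Cc_fix h (hXA x hx) (hcm x hx _ (hP y (hXA y hy))),
      Cc_fix h (hXA y hy) (hcm y hy _ (hP x (hXA x hx)))]
  have hinv : ∀ x ∈ A', DD h e x⁻¹ η = -DD h e x η := by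
    intro x hx
    unfold DD
    rw [gq_inv h (hXA x hx) hE2, gq_inv h (hXA x hx) hη]
    abel
  refine Subgroup.relIndex_ne_zero_trans (K := A') ?_ hA
  refine fi_of_map (fun x => DD h e x η) (hc'.subset ?_) ?_
  · rintro _ ⟨x, hx, rfl⟩
    exact hP x (hXA x hx)
  · intro x hx y hy exy
    have e1 : DD h e (y * x⁻¹) η = 0 := by
      rw [hmul y hy x⁻¹ (A'.inv_mem hx), hinv x hx]
      have : DD h e x η = DD h e y η := exy
      rw [this, neg_add_cancel]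
    have hyx : XA K a (y * x⁻¹) := (hXA y hy).mul (hXA x hx).inv
    exact gq_inj' h hyx hη hE2 (sub_eq_zero.1 e1).symm

/-- LEMMA Y (2), from `J` to `X`: if `S_z (J_c)` is finite then `z ∈ HD(C_K(b))`. -/
theorem y_two (hb : {q | XA K b q ∧ fi (Cz K a) q}.Finite)
    (hc : {t | XA K c t ∧ fi (Cz K a) t}.Finite) {z : G} (hz : XA K a z)
    (hf : {y | ∃ γ, y = Sc h z γ}.Finite) : fi (Cz K b) z := by
  have hb' := PB_fin h hb
  have hc' := PC_fin h hc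
  have key : ∀ β, XA K b β → gq h z β ∈ PC h := by
    intro β hβ
    show fi (Cz K a) _
    apply fiJc h
    refine (hf.image2 (fun u v => u + v) (ZB_fin h hb')).subset ?_
    rintro _ ⟨x, hx, rfl⟩
    obtain ⟨w, hw, r⟩ := gq_two' h (mem_Cz.1 hx) hz hβ
    exact ⟨_, ⟨_, rfl⟩, w, hw, r.symm⟩
  refine fi_of_map (fun q => gq h z q) (hc'.subset ?_) ?_
  · rintro _ ⟨q, hq, rfl⟩
    exact key q (mem_Cz.1 hq)
  · intro q hq q' hq' e
    have h1 := gq_inj' h hz (mem_Cz.1 hq) (mem_Cz.1 hq') e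
    have h2 : q⁻¹ * q' = q' * q⁻¹ :=
      XA.comm h.rot (XA.inv (mem_Cz.1 hq)) (mem_Cz.1 hq')
    rw [h2] at h1
    exact h1.symm

/-- On `J_c`, `J_b`: `[x, e]`. -/
theorem y_J (D : ED h e ec ec' eb) (hΔ : {d : J h | ∃ γ, d = ec γ - γ}.Finite)
    (hΔb : {d : J h.rot.rot | ∃ β, d = eb β - β}.Finite) {x : G} (hx : XA K a x) :
    {y | ∃ γ, y = Sc h (x⁻¹ * (e⁻¹ * x * e)) γ}.Finite ∧
    {y | ∃ β, y = Sb h (x⁻¹ * (e⁻¹ * x * e)) β}.Finite := by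
  have hEx : XA K a (e⁻¹ * x * e) := D.Xa _ hx
  have hz : XA K a (x⁻¹ * (e⁻¹ * x * e)) := hx.inv.mul hEx
  have ez : x⁻¹ * (e⁻¹ * x * e) = (e⁻¹ * x * e) * x⁻¹ := XA.comm h hx.inv hEx
  constructor
  · refine fin1 (Sc h (e⁻¹ * x * e) - Sc h x) _ ?_ ?_
    · refine fin1 (ec - AddMonoidHom.id (J h)) _ ?_ ?_
      · refine hΔ.subset ?_
        rintro _ ⟨γ, rfl⟩
        exact ⟨γ, rfl⟩
      · refine hΔb.subset ?_
        rintro _ ⟨γ, h1, rfl⟩
        have h2 : ec γ = γ := sub_eq_zero.1 h1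
        refine ⟨Sc h x γ, ?_⟩
        show Sc h (e⁻¹ * x * e) γ - Sc h x γ = eb (Sc h x γ) - Sc h x γ
        rw [← D.sc x hx, h2]
    · refine (Set.finite_singleton (0 : J h.rot.rot)).subset ?_
      rintro _ ⟨γ, h1, rfl⟩
      have h2 : Sc h x γ = Sc h (e⁻¹ * x * e) γ := (sub_eq_zero.1 h1).symm
      have h3 := Sc_inj h hx hEx h2
      rw [← ez] at h3
      exact Sc_fix h hz h3
  · refine fin1 (Sb h (e⁻¹ * x * e) - Sb h x) _ ?_ ?_
    · refine fin1 (eb - AddMonoidHom.id (J h.rot.rot)) _ ?_ ?_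
      · refine hΔb.subset ?_
        rintro _ ⟨γ, rfl⟩
        exact ⟨γ, rfl⟩
      · refine hΔ.subset ?_
        rintro _ ⟨β, h1, rfl⟩
        have h2 : eb β = β := sub_eq_zero.1 h1
        refine ⟨Sb h x β, ?_⟩
        show Sb h (e⁻¹ * x * e) β - Sb h x β = ec (Sb h x β) - Sb h x β
        rw [← D.sb x hx, h2]
    · refine (Set.finite_singleton (0 : J h)).subset ?_
      rintro _ ⟨β, h1, rfl⟩
      have h2 : Sb h x β = Sb h (e⁻¹ * x * e) β := (sub_eq_zero.1 h1).symm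
      rw [← gq_Sb h hx, ← gq_Sb h hEx] at h2
      have h3 := gq_inj h hx hEx (J.xa β) h2
      rw [← ez] at h3
      show Sb h _ β = 0
      rw [← gq_Sb h hz]
      exact gq_zero' h hz (J.xa β) h3

end main

end Pool.Agent.FourGp.H71
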